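import Mathlib

/-!
# MP_305fdd_al, F_r, block LAURENT: normal forms of representations into `SL(2, Ω)`
-/

set_option autoImplicit false

namespace Pool.Agent.FrL

open Matrix

/-- the special linear group of degree two -/
abbrev SL2 (R : Type) [CommRing R] := Matrix.SpecialLinearGroup (Fin 2) R

section
variable {R : Type} [CommRing R]

/-- an element with given entries -/
def mk2 (a b c d : R) (h : a * d - b * c = 1) : SL2 R :=
  ⟨!![a, b; c, d], by rw [Matrix.det_fin_two_of, h]⟩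

theorem mk2_00 (a b c d : R) (h : a * d - b * c = 1) : (mk2 a b c d h).1 0 0 = a := rfl
theorem mk2_01 (a b c d : R) (h : a * d - b * c = 1) : (mk2 a b c d h).1 0 1 = b := rfl
theorem mk2_10 (a b c d : R) (h : a * d - b * c = 1) : (mk2 a b c d h).1 1 0 = c := rfl
theorem mk2_11 (a b c d : R) (h : a * d - b * c = 1) : (mk2 a b c d h).1 1 1 = d := rfl

/-- the diagonal matrix with entries `t, t⁻¹` -/
def dg (t : Rˣ) : SL2 R := mk2 (t : R) 0 0 ((t⁻¹ : Rˣ) : R) (by simp)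

theorem dg_00 (t : Rˣ) : (dg t).1 0 0 = t := rfl
theorem dg_01 (t : Rˣ) : (dg t).1 0 1 = 0 := rfl
theorem dg_10 (t : Rˣ) : (dg t).1 1 0 = 0 := rfl
theorem dg_11 (t : Rˣ) : (dg t).1 1 1 = ((t⁻¹ : Rˣ) : R) := rfl

theorem sl2_ext {A B : SL2 R} (h00 : A.1 0 0 = B.1 0 0) (h01 : A.1 0 1 = B.1 0 1)
    (h10 : A.1 1 0 = B.1 1 0) (h11 : A.1 1 1 = B.1 1 1) : A = B := by
  apply Subtype.ext
  ext i j
  fin_cases i <;> fin_cases j <;> assumption

theorem mul_00 (A B : SL2 R) : (A * B).1 0 0 = A.1 0 0 * B.1 0 0 + A.1 0 1 * B.1 1 0 := by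
  simp [Matrix.mul_apply, Fin.sum_univ_two]
theorem mul_01 (A B : SL2 R) : (A * B).1 0 1 = A.1 0 0 * B.1 0 1 + A.1 0 1 * B.1 1 1 := by
  simp [Matrix.mul_apply, Fin.sum_univ_two]
theorem mul_10 (A B : SL2 R) : (A * B).1 1 0 = A.1 1 0 * B.1 0 0 + A.1 1 1 * B.1 1 0 := by
  simp [Matrix.mul_apply, Fin.sum_univ_two]
theorem mul_11 (A B : SL2 R) : (A * B).1 1 1 = A.1 1 0 * B.1 0 1 + A.1 1 1 * B.1 1 1 := by
  simp [Matrix.mul_apply, Fin.sum_univ_two]

theorem inv_00 (A : SL2 R) : (A⁻¹).1 0 0 = A.1 1 1 := by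
  simp [Matrix.SpecialLinearGroup.coe_inv, Matrix.adjugate_fin_two]
theorem inv_01 (A : SL2 R) : (A⁻¹).1 0 1 = -A.1 0 1 := by
  simp [Matrix.SpecialLinearGroup.coe_inv, Matrix.adjugate_fin_two]
theorem inv_10 (A : SL2 R) : (A⁻¹).1 1 0 = -A.1 1 0 := by
  simp [Matrix.SpecialLinearGroup.coe_inv, Matrix.adjugate_fin_two]
theorem inv_11 (A : SL2 R) : (A⁻¹).1 1 1 = A.1 0 0 := by
  simp [Matrix.SpecialLinearGroup.coe_inv, Matrix.adjugate_fin_two]

theorem one_00 : (1 : SL2 R).1 0 0 = 1 := rfl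
theorem one_01 : (1 : SL2 R).1 0 1 = 0 := rfl
theorem one_10 : (1 : SL2 R).1 1 0 = 0 := rfl
theorem one_11 : (1 : SL2 R).1 1 1 = 1 := rfl

theorem det_eq (A : SL2 R) : A.1 0 0 * A.1 1 1 - A.1 0 1 * A.1 1 0 = 1 := by
  have := A.2
  rwa [Matrix.det_fin_two] at this

theorem trace_conj (q A : SL2 R) : (q⁻¹ * A * q).1.trace = A.1.trace := by
  have h1 : (q⁻¹ * A * q).1 = (q⁻¹).1 * A.1 * q.1 := by simp
  rw [h1, Matrix.trace_mul_comm, ← Matrix.mul_assoc]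
  have h2 : q.1 * (q⁻¹).1 = 1 := by
    rw [← Matrix.SpecialLinearGroup.coe_mul, mul_inv_cancel]
    rfl
  rw [h2, Matrix.one_mul]

theorem trace_conj' (q A : SL2 R) : (q * A * q⁻¹).1.trace = A.1.trace := by
  have := trace_conj q⁻¹ A
  rwa [inv_inv] at this

end

section
variable {Ω : Type} [Field Ω]

/-- diagonalisation of an element with two different eigenvalues -/
theorem exists_diag (z : SL2 Ω) (ψ : Ωˣ) (hne : (ψ : Ω) ≠ ((ψ⁻¹ : Ωˣ) : Ω))
    (htr : z.1.trace = ψ + ((ψ⁻¹ : Ωˣ) : Ω)) : ∃ q : SL2 Ω, q⁻¹ * z * q = dg ψ := by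
  suffices h : ∃ q : SL2 Ω, z * q = q * dg ψ by
    obtain ⟨q, hq⟩ := h
    exact ⟨q, by rw [mul_assoc, hq, inv_mul_cancel_left]⟩
  have hψ : (ψ : Ω) * ((ψ⁻¹ : Ωˣ) : Ω) = 1 := Units.mul_inv ψ
  suffices h : ∃ x y u v : Ω, x * v - y * u = 1 ∧ z.1 0 0 * x + z.1 0 1 * u = x * ψ ∧
      z.1 0 0 * y + z.1 0 1 * v = y * ((ψ⁻¹ : Ωˣ) : Ω) ∧ z.1 1 0 * x + z.1 1 1 * u = u * ψ ∧
      z.1 1 0 * y + z.1 1 1 * v = v * ((ψ⁻¹ : Ωˣ) : Ω) by
    obtain ⟨x, y, u, v, h, h00, h01, h10, h11⟩ := h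
    refine ⟨mk2 x y u v h, ?_⟩
    apply sl2_ext
    · rw [mul_00, mul_00, dg_00, dg_10, mk2_00, mk2_10, mk2_01, h00]
      ring
    · rw [mul_01, mul_01, dg_01, dg_11, mk2_00, mk2_11, mk2_01, h01]
      ring
    · rw [mul_10, mul_10, dg_00, dg_10, mk2_00, mk2_10, mk2_11, h10]
      ring
    · rw [mul_11, mul_11, dg_01, dg_11, mk2_11, mk2_10, mk2_01, h11]
      ring
  have hdet := det_eq z
  rw [Matrix.trace_fin_two] at htr
  generalize ((ψ⁻¹ : Ωˣ) : Ω) = φ at *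
  generalize (ψ : Ω) = μ at *
  generalize z.1 0 0 = a at *
  generalize z.1 0 1 = b at *
  generalize z.1 1 0 = c at *
  generalize z.1 1 1 = d at *
  have hne' : μ - φ ≠ 0 := sub_ne_zero.2 hne
  have hne'' : φ - μ ≠ 0 := sub_ne_zero.2 hne.symm
  have hd : d = μ + φ - a := by rw [← htr]; ring
  by_cases hc : c = 0
  · by_cases hb : b = 0
    · have h1 : (a - μ) * (a - φ) = 0 := by
        rw [hd, hb, hc] at hdet
        linear_combination hψ - hdet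
      rcases mul_eq_zero.1 h1 with h2 | h2
      · rw [sub_eq_zero] at h2
        refine ⟨1, 0, 0, 1, by ring, ?_, ?_, ?_, ?_⟩ <;> simp only [hd, h2, hb, hc] <;> ring
      · rw [sub_eq_zero] at h2
        refine ⟨0, 1, -1, 0, by ring, ?_, ?_, ?_, ?_⟩ <;> simp only [hd, h2, hb, hc] <;> ring
    · refine ⟨b, b / (b * (φ - μ)), d - φ, (d - μ) / (b * (φ - μ)), ?_, ?_, ?_, ?_, ?_⟩
      · field_simp
        ring
      · rw [hd]
        ring
      · field_simp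
        rw [hd]
        ring
      · rw [hc]
        have : d * (d - φ) = (d - φ) * μ := by
          have h3 : a = μ + φ - d := by rw [← htr]; ring
          rw [hc, h3] at hdet
          linear_combination hψ - hdet
        rw [this]
        ring
      · rw [hc]
        have : d * (d - μ) = (d - μ) * φ := by
          have h3 : a = μ + φ - d := by rw [← htr]; ring
          rw [hc, h3] at hdet
          linear_combination hψ - hdet
        rw [zero_mul, zero_add, mul_div_assoc', this, mul_div_right_comm]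
  · refine ⟨a - φ, (a - μ) / (c * (μ - φ)), c, c / (c * (μ - φ)), ?_, ?_, ?_, ?_, ?_⟩
    · field_simp
      ring
    · rw [hd] at hdet
      linear_combination hψ - hdet
    · have : a * (a - μ) + b * c = (a - μ) * φ := by
        rw [hd] at hdet
        linear_combination hψ - hdet
      rw [mul_div_assoc', mul_div_assoc', ← add_div, this, mul_div_right_comm]
    · rw [hd]
      ring
    · field_simp
      rw [hd]
      ring

end

/-- change of the ring -/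
abbrev mp {R S : Type} [CommRing R] [CommRing S] (f : R →+* S) : SL2 R →* SL2 S :=
  Matrix.SpecialLinearGroup.map f

theorem mp_apply {R S : Type} [CommRing R] [CommRing S] (f : R →+* S) (A : SL2 R) (i j : Fin 2) :
    (mp f A).1 i j = f (A.1 i j) := rfl

theorem mp_inj {R S : Type} [CommRing R] [CommRing S] (f : R →+* S) (hf : Function.Injective f)
    {A B : SL2 R} (h : mp f A = mp f B) : A = B := by
  apply Subtype.ext
  ext i j
  apply hf
  rw [← mp_apply, ← mp_apply, h]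

theorem mp_trace {R S : Type} [CommRing R] [CommRing S] (f : R →+* S) (A : SL2 R) :
    (mp f A).1.trace = f A.1.trace := by
  rw [Matrix.trace_fin_two, Matrix.trace_fin_two, map_add]
  rfl

theorem mp_dg {R S : Type} [CommRing R] [CommRing S] (f : R →+* S) (t : Rˣ) :
    mp f (dg t) = dg (Units.map (f : R →* S) t) := by
  apply sl2_ext
  · rfl
  · exact map_zero f
  · exact map_zero f
  · rfl

section
variable {E Ω G : Type} [Field E] [Field Ω] [Group G]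

/-- a representation whose entries lie in a subfield -/
theorem lift_rep (ι : E →+* Ω) (r : G → SL2 Ω) (hr1 : ∀ g h, r (g * h) = r g * r h)
    (h : ∀ g i j, (r g).1 i j ∈ ι.range) :
    ∃ r' : G →* SL2 E, ∀ g, mp ι (r' g) = r g := by
  choose e he using h
  have hdet : ∀ g, e g 0 0 * e g 1 1 - e g 0 1 * e g 1 0 = 1 := by
    intro g
    apply ι.injective
    rw [map_sub, map_mul, map_mul, he, he, he, he, map_one]
    exact det_eq (r g)
  have key : ∀ g, mp ι (mk2 (e g 0 0) (e g 0 1) (e g 1 0) (e g 1 1) (hdet g)) = r g := by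
    intro g
    apply sl2_ext <;> rw [mp_apply]
    · exact he g 0 0
    · exact he g 0 1
    · exact he g 1 0
    · exact he g 1 1
  refine ⟨MonoidHom.mk' (fun g => mk2 (e g 0 0) (e g 0 1) (e g 1 0) (e g 1 1) (hdet g)) ?_, key⟩
  intro g h
  apply mp_inj ι ι.injective
  rw [map_mul, key, key, key, hr1]

theorem diag_entry (ψ : Ωˣ) (A : SL2 Ω) : ((ψ : Ω) - ((ψ⁻¹ : Ωˣ) : Ω)) * A.1 0 0 =
    (dg ψ * A).1.trace - ((ψ⁻¹ : Ωˣ) : Ω) * A.1.trace := by
  rw [Matrix.trace_fin_two, Matrix.trace_fin_two, mul_00, mul_11, dg_00, dg_01, dg_10, dg_11]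
  ring

theorem comm_trace_10 (A B : SL2 Ω) (hA : A.1 1 0 = 0) (hB : B.1 1 0 = 0) :
    (A * B * A⁻¹ * B⁻¹).1.trace = 2 := by
  have h1 := det_eq A
  have h2 := det_eq B
  rw [hA, mul_zero, sub_zero] at h1
  rw [hB, mul_zero, sub_zero] at h2
  rw [Matrix.trace_fin_two]
  simp only [mul_00, mul_01, mul_10, mul_11, inv_00, inv_01, inv_10, inv_11, hA, hB]
  linear_combination (2 * B.1 0 0 * B.1 1 1) * h1 + 2 * h2

theorem comm_trace_01 (A B : SL2 Ω) (hA : A.1 0 1 = 0) (hB : B.1 0 1 = 0) :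
    (A * B * A⁻¹ * B⁻¹).1.trace = 2 := by
  have h1 := det_eq A
  have h2 := det_eq B
  rw [hA, zero_mul, sub_zero] at h1
  rw [hB, zero_mul, sub_zero] at h2
  rw [Matrix.trace_fin_two]
  simp only [mul_00, mul_01, mul_10, mul_11, inv_00, inv_01, inv_10, inv_11, hA, hB]
  linear_combination (2 * B.1 0 0 * B.1 1 1) * h1 + 2 * h2

/-- The hypothesis on a representation: there are elements whose commutator does not have trace `2`. -/
def Irr (r : G →* SL2 Ω) : Prop := ∃ a b : G, (r (a * b * a⁻¹ * b⁻¹)).1.trace ≠ 2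

/-- conjugate representation -/
def cj (q : SL2 Ω) (r : G →* SL2 Ω) : G →* SL2 Ω := (MulAut.conj q⁻¹).toMonoidHom.comp r

theorem cj_apply (q : SL2 Ω) (r : G →* SL2 Ω) (g : G) : cj q r g = q⁻¹ * r g * q := by
  simp [cj]

theorem cj_trace (q : SL2 Ω) (r : G →* SL2 Ω) (g : G) : (cj q r g).1.trace = (r g).1.trace := by
  rw [cj_apply, trace_conj]

theorem Irr.cj {r : G →* SL2 Ω} (h : Irr r) (q : SL2 Ω) : Irr (cj q r) := by
  obtain ⟨a, b, hab⟩ := h
  exact ⟨a, b, by rwa [cj_trace]⟩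

theorem Irr.ex10 {r : G →* SL2 Ω} (h : Irr r) : ∃ g, (r g).1 1 0 ≠ 0 := by
  by_contra hn
  push Not at hn
  obtain ⟨a, b, hab⟩ := h
  apply hab
  rw [map_mul, map_mul, map_mul, map_inv, map_inv]
  exact comm_trace_10 _ _ (hn a) (hn b)

theorem Irr.ex01 {r : G →* SL2 Ω} (h : Irr r) : ∃ g, (r g).1 0 1 ≠ 0 := by
  by_contra hn
  push Not at hn
  obtain ⟨a, b, hab⟩ := h
  apply hab
  rw [map_mul, map_mul, map_mul, map_inv, map_inv]
  exact comm_trace_01 _ _ (hn a) (hn b)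

theorem dg_cj (u : Ωˣ) (A : SL2 Ω) : (dg u)⁻¹ * A * dg u =
    mk2 (A.1 0 0) (((u⁻¹ : Ωˣ) : Ω) * ((u⁻¹ : Ωˣ) : Ω) * A.1 0 1) ((u : Ω) * u * A.1 1 0) (A.1 1 1) (by
      have h1 := det_eq A
      have h2 : (u : Ω) * ((u⁻¹ : Ωˣ) : Ω) = 1 := u.mul_inv
      linear_combination h1 - A.1 0 1 * A.1 1 0 * ((u : Ω) * ((u⁻¹ : Ωˣ) : Ω) + 1) * h2) := by
  have h2 : (u : Ω) * ((u⁻¹ : Ωˣ) : Ω) = 1 := u.mul_inv
  apply sl2_ext
  · rw [mul_00, mul_00, mul_01, inv_00, inv_01, dg_00, dg_01, dg_10, dg_11, mk2_00]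
    linear_combination A.1 0 0 * h2
  · rw [mul_01, mul_00, mul_01, inv_00, inv_01, dg_01, dg_11, mk2_01]
    ring
  · rw [mul_10, mul_10, mul_11, inv_10, inv_11, dg_00, dg_10, mk2_10]
    ring
  · rw [mul_11, mul_10, mul_11, inv_10, inv_11, dg_00, dg_01, dg_10, dg_11, mk2_11]
    linear_combination A.1 1 1 * h2

/-- normal form: values in the field which contains the traces and one eigenvalue -/
theorem nf (ι : E →+* Ω) (hsq : ∀ x : Ω, ∃ y, y * y = x) (r : G →* SL2 Ω)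
    (hT : ∀ g, (r g).1.trace ∈ ι.range) (z : G) (ψ : Eˣ) (hne : (ψ : E) ≠ ((ψ⁻¹ : Eˣ) : E))
    (htr : (r z).1.trace = ι (ψ + ((ψ⁻¹ : Eˣ) : E))) (hirr : Irr r) :
    ∃ (q : SL2 Ω) (r' : G →* SL2 E), (∀ g, mp ι (r' g) = q⁻¹ * r g * q) ∧
      Submodule.span E (Set.range fun g => (r' g).1) = ⊤ := by
  set ψ' : Ωˣ := Units.map (ι : E →* Ω) ψ with hψ'
  have hψ1 : (ψ' : Ω) = ι ψ := rfl
  have hψ2 : ((ψ'⁻¹ : Ωˣ) : Ω) = ι ((ψ⁻¹ : Eˣ) : E) := rfl
  have hne' : (ψ' : Ω) ≠ ((ψ'⁻¹ : Ωˣ) : Ω) := by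
    rw [hψ1, hψ2]
    exact fun h => hne (ι.injective h)
  have hne0 : (ψ' : Ω) - ((ψ'⁻¹ : Ωˣ) : Ω) ≠ 0 := sub_ne_zero.2 hne'
  obtain ⟨q0, hq0⟩ := exists_diag (r z) ψ' hne' (by rw [htr, map_add, hψ1, hψ2])
  obtain ⟨h, hh⟩ := (hirr.cj q0).ex10
  obtain ⟨u0, hu0⟩ := hsq ((cj q0 r h).1 1 0)⁻¹
  have hu00 : u0 ≠ 0 := by
    rintro rfl
    rw [zero_mul] at hu0
    exact inv_ne_zero hh hu0.symm
  set u := Units.mk0 u0 hu00 with hu
  set r2 := cj (q0 * dg u) r with hr2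
  have hr2a : ∀ g, r2 g = (dg u)⁻¹ * (cj q0 r g) * dg u := by
    intro g
    rw [hr2, cj_apply, cj_apply]
    group
  have hz : r2 z = dg ψ' := by
    rw [hr2a, cj_apply, hq0, dg_cj]
    apply sl2_ext
    · rfl
    · rw [mk2_01, dg_01, mul_zero]
    · rw [mk2_10, dg_10, mul_zero]
    · rfl
  have hh1 : (r2 h).1 1 0 = 1 := by
    rw [hr2a, dg_cj, mk2_10, hu, Units.val_mk0, hu0, inv_mul_cancel₀ hh]
  have hT2 : ∀ g, (r2 g).1.trace ∈ ι.range := by
    intro g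
    rw [hr2, cj_trace]
    exact hT g
  have h00 : ∀ g, (r2 g).1 0 0 ∈ ι.range := by
    intro g
    have h1 := diag_entry ψ' (r2 g)
    rw [← hz, ← map_mul] at h1
    obtain ⟨a, ha⟩ := hT2 (z * g)
    obtain ⟨b, hb⟩ := hT2 g
    refine ⟨(a - ((ψ⁻¹ : Eˣ) : E) * b) / (ψ - ((ψ⁻¹ : Eˣ) : E)), ?_⟩
    rw [map_div₀, map_sub, map_sub, map_mul, ha, hb, ← hψ1, ← hψ2, ← h1, mul_div_cancel_left₀ _ hne0]
  have h11 : ∀ g, (r2 g).1 1 1 ∈ ι.range := by
    intro g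
    have h1 : (r2 g).1 1 1 = (r2 g).1.trace - (r2 g).1 0 0 := by
      rw [Matrix.trace_fin_two]
      ring
    rw [h1]
    exact sub_mem (hT2 g) (h00 g)
  have h01 : ∀ g, (r2 g).1 0 1 ∈ ι.range := by
    intro g
    have h1 := mul_00 (r2 g) (r2 h)
    rw [← map_mul, hh1, mul_one] at h1
    have h2 : (r2 g).1 0 1 = (r2 (g * h)).1 0 0 - (r2 g).1 0 0 * (r2 h).1 0 0 := by
      rw [h1]
      ring
    rw [h2]
    exact sub_mem (h00 _) (mul_mem (h00 _) (h00 _))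
  obtain ⟨g0, hg0⟩ := (hirr.cj (q0 * dg u)).ex01
  rw [← hr2] at hg0
  have h10 : ∀ g, (r2 g).1 1 0 ∈ ι.range := by
    intro g
    have h1 := mul_00 (r2 g0) (r2 g)
    rw [← map_mul] at h1
    have h2 : (r2 g).1 1 0 = ((r2 (g0 * g)).1 0 0 - (r2 g0).1 0 0 * (r2 g).1 0 0) *
        ((r2 g0).1 0 1)⁻¹ := by
      rw [h1]
      field_simp
      ring
    rw [h2]
    obtain ⟨a, ha⟩ := h01 g0
    refine mul_mem (sub_mem (h00 _) (mul_mem (h00 _) (h00 _))) ⟨a⁻¹, ?_⟩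
    rw [map_inv₀, ha]
  obtain ⟨r', hr'⟩ := lift_rep ι r2 (map_mul r2) (by
    intro g i j
    fin_cases i <;> fin_cases j
    · exact h00 g
    · exact h01 g
    · exact h10 g
    · exact h11 g)
  refine ⟨q0 * dg u, r', fun g => by rw [hr', hr2, cj_apply], ?_⟩
  -- the span
  set S := Submodule.span E (Set.range fun g => (r' g).1) with hS
  have hmulS : ∀ A ∈ S, ∀ B ∈ S, A * B ∈ S := by
    intro A hA B hB
    have h1 := Submodule.mul_mem_mul hA hB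
    rw [hS, Submodule.span_mul_span] at h1
    refine Submodule.span_mono ?_ h1
    rintro _ ⟨_, ⟨g, rfl⟩, _, ⟨g', rfl⟩, rfl⟩
    exact ⟨g * g', by simp⟩
  have hin : ∀ g, (r' g).1 ∈ S := fun g => Submodule.subset_span ⟨g, rfl⟩
  have hone : (1 : Matrix (Fin 2) (Fin 2) E) ∈ S := by
    have := hin 1
    rwa [map_one] at this
  have hz' : r' z = dg ψ := by
    apply mp_inj ι ι.injective
    rw [hr', hz, mp_dg]
  have hneE : (ψ : E) - ((ψ⁻¹ : Eˣ) : E) ≠ 0 := sub_ne_zero.2 hne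
  have e0 : Matrix.single 0 0 (1 : E) ∈ S := by
    have h1 : Matrix.single 0 0 (1 : E) = ((ψ : E) - ((ψ⁻¹ : Eˣ) : E))⁻¹ •
        ((r' z).1 - ((ψ⁻¹ : Eˣ) : E) • (1 : Matrix (Fin 2) (Fin 2) E)) := by
      rw [hz']
      have d0 := dg_00 ψ
      have d1 := dg_01 ψ
      have d2 := dg_10 ψ
      have d3 := dg_11 ψ
      ext i j
      rw [Matrix.smul_apply, Matrix.sub_apply, Matrix.smul_apply]
      fin_cases i <;> fin_cases j <;> simp only [Fin.zero_eta, Fin.mk_one, d0, d1, d2, d3,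
        Matrix.single_apply, smul_eq_mul, Matrix.one_apply] <;> simp
      rw [← Units.val_inv_eq_inv_val, inv_mul_cancel₀ hneE]
    rw [h1]
    exact S.smul_mem _ (S.sub_mem (hin z) (S.smul_mem _ hone))
  have e1 : Matrix.single 1 1 (1 : E) ∈ S := by
    have h1 : (Matrix.single 1 1 (1 : E) : Matrix (Fin 2) (Fin 2) E) =
        1 - Matrix.single 0 0 (1 : E) := by
      ext i j
      rw [Matrix.sub_apply]
      fin_cases i <;> fin_cases j <;> simp
    rw [h1]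
    exact S.sub_mem hone e0
  have hg0' : (r' g0).1 0 1 ≠ 0 := by
    intro h0
    apply hg0
    rw [← hr', mp_apply, h0, map_zero]
  have hh' : (r' h).1 1 0 ≠ 0 := by
    intro h0
    have : (r2 h).1 1 0 = 0 := by rw [← hr', mp_apply, h0, map_zero]
    rw [hh1] at this
    exact one_ne_zero this
  have e01 : Matrix.single 0 1 (1 : E) ∈ S := by
    have h1 : Matrix.single 0 1 (1 : E) = ((r' g0).1 0 1)⁻¹ •
        (Matrix.single 0 0 (1 : E) * (r' g0).1 * Matrix.single 1 1 (1 : E)) := by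
      rw [Matrix.single_mul_mul_single, Matrix.smul_single]
      congr 1
      rw [one_mul, mul_one, smul_eq_mul, inv_mul_cancel₀ hg0']
    rw [h1]
    exact S.smul_mem _ (hmulS _ (hmulS _ e0 _ (hin g0)) _ e1)
  have e10 : Matrix.single 1 0 (1 : E) ∈ S := by
    have h1 : Matrix.single 1 0 (1 : E) = ((r' h).1 1 0)⁻¹ •
        (Matrix.single 1 1 (1 : E) * (r' h).1 * Matrix.single 0 0 (1 : E)) := by
      rw [Matrix.single_mul_mul_single, Matrix.smul_single]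
      congr 1
      rw [one_mul, mul_one, smul_eq_mul, inv_mul_cancel₀ hh']
    rw [h1]
    exact S.smul_mem _ (hmulS _ (hmulS _ e1 _ (hin h)) _ e0)
  rw [eq_top_iff]
  intro A _
  have hs : ∀ (i j : Fin 2) (x : E), Matrix.single i j x = x • Matrix.single i j (1 : E) := by
    intro i j x
    rw [Matrix.smul_single, smul_eq_mul, mul_one]
  rw [Matrix.matrix_eq_sum_single A]
  refine S.sum_mem fun i _ => S.sum_mem fun j _ => ?_
  rw [hs]
  refine S.smul_mem _ ?_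
  fin_cases i <;> fin_cases j
  · exact e0
  · exact e01
  · exact e10
  · exact e1

/-- two representations with the same traces are conjugate -/
theorem conj_of_trace (hsq : ∀ x : Ω, ∃ y, y * y = x) (r1 r2 : G →* SL2 Ω)
    (hT : ∀ g, (r1 g).1.trace = (r2 g).1.trace) (z : G) (ψ : Ωˣ)
    (hne : (ψ : Ω) ≠ ((ψ⁻¹ : Ωˣ) : Ω)) (htr : (r1 z).1.trace = ψ + ((ψ⁻¹ : Ωˣ) : Ω))
    (hirr : Irr r1) : ∃ h : SL2 Ω, ∀ g, r2 g = h * r1 g * h⁻¹ := by
  have hne0 : (ψ : Ω) - ((ψ⁻¹ : Ωˣ) : Ω) ≠ 0 := sub_ne_zero.2 hne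
  obtain ⟨q1, hq1⟩ := exists_diag (r1 z) ψ hne htr
  obtain ⟨q2, hq2⟩ := exists_diag (r2 z) ψ hne (by rw [← hT, htr])
  have hT' : ∀ g, (cj q1 r1 g).1.trace = (cj q2 r2 g).1.trace := by
    intro g
    rw [cj_trace, cj_trace, hT]
  have h1z : cj q1 r1 z = dg ψ := by rw [cj_apply, hq1]
  have h2z : cj q2 r2 z = dg ψ := by rw [cj_apply, hq2]
  have h00 : ∀ g, (cj q1 r1 g).1 0 0 = (cj q2 r2 g).1 0 0 := by
    intro g
    apply mul_left_cancel₀ hne0
    rw [diag_entry, diag_entry, hT', ← h1z, ← map_mul, h1z, ← h2z, ← map_mul, hT' (z * g)]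
  have h11 : ∀ g, (cj q1 r1 g).1 1 1 = (cj q2 r2 g).1 1 1 := by
    intro g
    have h1 := hT' g
    rw [Matrix.trace_fin_two, Matrix.trace_fin_two, h00] at h1
    exact add_left_cancel h1
  have hoff : ∀ g h, (cj q1 r1 g).1 0 1 * (cj q1 r1 h).1 1 0 =
      (cj q2 r2 g).1 0 1 * (cj q2 r2 h).1 1 0 := by
    intro g h
    have h1 := mul_00 (cj q1 r1 g) (cj q1 r1 h)
    have h2 := mul_00 (cj q2 r2 g) (cj q2 r2 h)
    rw [← map_mul, h00, h00, h00] at h1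
    rw [← map_mul, h1] at h2
    exact add_left_cancel h2
  obtain ⟨h, hh⟩ := (hirr.cj q1).ex10
  obtain ⟨g0, hg0⟩ := (hirr.cj q1).ex01
  have hp : (cj q2 r2 g0).1 0 1 * (cj q2 r2 h).1 1 0 ≠ 0 := by
    rw [← hoff]
    exact mul_ne_zero hg0 hh
  have hh2 : (cj q2 r2 h).1 1 0 ≠ 0 := right_ne_zero_of_mul hp
  have hg2 : (cj q2 r2 g0).1 0 1 ≠ 0 := left_ne_zero_of_mul hp
  obtain ⟨u0, hu0⟩ := hsq ((cj q2 r2 h).1 1 0 / (cj q1 r1 h).1 1 0)
  have hu00 : u0 ≠ 0 := by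
    rintro rfl
    rw [zero_mul] at hu0
    exact div_ne_zero hh2 hh hu0.symm
  set u := Units.mk0 u0 hu00 with hu
  have hu1 : (u : Ω) * u = (cj q2 r2 h).1 1 0 / (cj q1 r1 h).1 1 0 := hu0
  have hu2 : ((u⁻¹ : Ωˣ) : Ω) * ((u⁻¹ : Ωˣ) : Ω) = (cj q1 r1 h).1 1 0 / (cj q2 r2 h).1 1 0 := by
    rw [Units.val_inv_eq_inv_val, ← mul_inv, hu1, inv_div]
  refine ⟨q2 * (dg u)⁻¹ * q1⁻¹, fun g => ?_⟩
  have key : (dg u)⁻¹ * cj q1 r1 g * dg u = cj q2 r2 g := by
    rw [dg_cj]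
    apply sl2_ext
    · rw [mk2_00, h00]
    · rw [mk2_01, hu2]
      have := hoff g h
      field_simp
      rw [mul_comm, this]
      ring
    · rw [mk2_10, hu1]
      have e1 := hoff g0 g
      have e2 := hoff g0 h
      have e3 : (cj q1 r1 g).1 1 0 / (cj q1 r1 h).1 1 0 = (cj q2 r2 g).1 1 0 / (cj q2 r2 h).1 1 0 := by
        rw [div_eq_div_iff hh hh2]
        apply mul_left_cancel₀ hg0
        apply mul_left_cancel₀ hg2
        linear_combination (cj q2 r2 h).1 1 0 * (cj q2 r2 g0).1 0 1 * e1 -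
          (cj q2 r2 g).1 1 0 * (cj q2 r2 g0).1 0 1 * e2
      have e4 : (cj q2 r2 h).1 1 0 / (cj q1 r1 h).1 1 0 * (cj q1 r1 g).1 1 0 =
        (cj q2 r2 h).1 1 0 * ((cj q1 r1 g).1 1 0 / (cj q1 r1 h).1 1 0) := by ring
      rw [e4, e3]
      field_simp
    · rw [mk2_11, h11]
  have h2 : r2 g = q2 * cj q2 r2 g * q2⁻¹ := by
    rw [cj_apply]
    group
  rw [h2, ← key, cj_apply]
  group

/-- an element which commutes with a regular diagonal matrix is diagonal -/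
theorem diag_of_comm (ψ : Ωˣ) (hne : (ψ : Ω) ≠ ((ψ⁻¹ : Ωˣ) : Ω)) (A : SL2 Ω)
    (h : A * dg ψ = dg ψ * A) : ∃ u : Ωˣ, A = dg u := by
  have hne0 : (ψ : Ω) - ((ψ⁻¹ : Ωˣ) : Ω) ≠ 0 := sub_ne_zero.2 hne
  have h01 : A.1 0 1 = 0 := by
    have h1 : (A * dg ψ).1 0 1 = (dg ψ * A).1 0 1 := by rw [h]
    rw [mul_01, mul_01, dg_00, dg_01, dg_11, mul_zero, zero_mul, zero_add, add_zero] at h1
    have h2 : ((ψ : Ω) - ((ψ⁻¹ : Ωˣ) : Ω)) * A.1 0 1 = 0 := by
      rw [sub_mul, ← h1]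
      ring
    exact (mul_eq_zero.1 h2).resolve_left hne0
  have h10 : A.1 1 0 = 0 := by
    have h1 : (A * dg ψ).1 1 0 = (dg ψ * A).1 1 0 := by rw [h]
    rw [mul_10, mul_10, dg_00, dg_10, dg_11, mul_zero, zero_mul, zero_add, add_zero] at h1
    have h2 : ((ψ : Ω) - ((ψ⁻¹ : Ωˣ) : Ω)) * A.1 1 0 = 0 := by
      rw [sub_mul, ← h1]
      ring
    exact (mul_eq_zero.1 h2).resolve_left hne0
  have hd := det_eq A
  rw [h01, zero_mul, sub_zero] at hd
  refine ⟨⟨A.1 0 0, A.1 1 1, hd, by rw [mul_comm, hd]⟩, ?_⟩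
  exact sl2_ext rfl h01 h10 rfl

/-- eigenvectors over the small field -/
theorem edge (ι : E →+* Ω) (X : SL2 E) (ψ : Eˣ) (hne : (ψ : E) ≠ ((ψ⁻¹ : Eˣ) : E)) (W : SL2 Ω)
    (h : mp ι X = W * dg (Units.map (ι : E →* Ω) ψ) * W⁻¹) :
    ∃ (S : SL2 E) (u : Ωˣ), W = mp ι S * dg u := by
  have hne' : ((Units.map (ι : E →* Ω) ψ : Ωˣ) : Ω) ≠
      (((Units.map (ι : E →* Ω) ψ)⁻¹ : Ωˣ) : Ω) := by
    intro h
    apply hne
    apply ι.injective
    exact h
  have htr : X.1.trace = ψ + ((ψ⁻¹ : Eˣ) : E) := by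
    apply ι.injective
    rw [← mp_trace, h, trace_conj', Matrix.trace_fin_two, dg_00, dg_11, map_add]
    rfl
  obtain ⟨S, hS⟩ := exists_diag X ψ hne htr
  have h1 : (mp ι S)⁻¹ * W * dg (Units.map (ι : E →* Ω) ψ) =
      dg (Units.map (ι : E →* Ω) ψ) * ((mp ι S)⁻¹ * W) := by
    have hd : dg (Units.map (ι : E →* Ω) ψ) = (mp ι S)⁻¹ * mp ι X * mp ι S := by
      rw [← mp_dg, ← hS, map_mul, map_mul, map_inv]
    conv_rhs => rw [hd, h]
    group
  obtain ⟨u, hu⟩ := diag_of_comm _ hne' _ h1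
  exact ⟨S, u, by rw [← hu, mul_inv_cancel_left]⟩

/-- an abelian family with an element with two eigenvalues is diagonal -/
theorem cyl (ι : E →+* Ω) (r : G →* SL2 Ω) (hT : ∀ g, (r g).1.trace ∈ ι.range) (z : G)
    (hcomm : ∀ g, g * z = z * g) (ψ : Eˣ) (hne : (ψ : E) ≠ ((ψ⁻¹ : Eˣ) : E))
    (htr : (r z).1.trace = ι (ψ + ((ψ⁻¹ : Eˣ) : E))) :
    ∃ (q : SL2 Ω) (χ : G →* Eˣ), χ z = ψ ∧
      ∀ g, q⁻¹ * r g * q = dg (Units.map (ι : E →* Ω) (χ g)) := by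
  have hne' : ((Units.map (ι : E →* Ω) ψ : Ωˣ) : Ω) ≠
      (((Units.map (ι : E →* Ω) ψ)⁻¹ : Ωˣ) : Ω) := by
    intro h
    apply hne
    apply ι.injective
    exact h
  have hneE : (ψ : E) - ((ψ⁻¹ : Eˣ) : E) ≠ 0 := sub_ne_zero.2 hne
  have hne0 := sub_ne_zero.2 hne'
  obtain ⟨q, hq⟩ := exists_diag (r z) (Units.map (ι : E →* Ω) ψ) hne' (by
    rw [htr, map_add]
    rfl)
  have hz : cj q r z = dg (Units.map (ι : E →* Ω) ψ) := by rw [cj_apply, hq]
  have h1 : ∀ g, ∃ u, cj q r g = dg u := by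
    intro g
    apply diag_of_comm _ hne'
    rw [← hz, ← map_mul, ← map_mul, hcomm]
  choose u hu using h1
  have hur : ∀ g, ∃ e : E, ι e = (u g : Ω) := by
    intro g
    obtain ⟨a, ha⟩ := hT (z * g)
    obtain ⟨b, hb⟩ := hT g
    refine ⟨(a - ((ψ⁻¹ : Eˣ) : E) * b) / (ψ - ((ψ⁻¹ : Eˣ) : E)), ?_⟩
    have h2 := diag_entry (Units.map (ι : E →* Ω) ψ) (cj q r g)
    rw [← hz, ← map_mul, cj_trace, cj_trace, hu, dg_00] at h2
    have hne1 : ι (ψ : E) - ι ((ψ⁻¹ : Eˣ) : E) ≠ 0 := hne0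
    rw [map_div₀, map_sub, map_sub, map_mul, ha, hb, div_eq_iff hne1, mul_comm (u g : Ω)]
    exact h2.symm
  choose e he using hur
  have he0 : ∀ g, e g ≠ 0 := by
    intro g h0
    have := he g
    rw [h0, map_zero] at this
    exact (u g).ne_zero this.symm
  have hum : ∀ g h, u (g * h) = u g * u h := by
    intro g h
    have h2 := map_mul (cj q r) g h
    rw [hu, hu, hu] at h2
    apply Units.ext
    have h3 : (dg (u (g * h))).1 0 0 = (dg (u g) * dg (u h)).1 0 0 := by rw [h2]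
    rw [mul_00, dg_00, dg_00, dg_00, dg_01, zero_mul, add_zero] at h3
    exact h3
  have hkey : ∀ g, Units.map (ι : E →* Ω) (Units.mk0 (e g) (he0 g)) = u g := by
    intro g
    apply Units.ext
    exact he g
  refine ⟨q, MonoidHom.mk' (fun g => Units.mk0 (e g) (he0 g)) ?_, ?_, ?_⟩
  · intro g h
    apply Units.ext
    apply ι.injective
    rw [Units.val_mul, Units.val_mk0, Units.val_mk0, Units.val_mk0, map_mul, he, he, he, hum,
      Units.val_mul]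
  · apply Units.ext
    apply ι.injective
    rw [MonoidHom.mk'_apply, Units.val_mk0, he]
    have h2 : (dg (u z)).1 0 0 = (dg (Units.map (ι : E →* Ω) ψ)).1 0 0 := by rw [← hu, hz]
    exact h2
  · intro g
    rw [← cj_apply, hu, MonoidHom.mk'_apply, hkey]

end

end Pool.Agent.FrL
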