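import Pool.Agent.Lib.MP_305fdd_al.Fr.L.Gal
import Pool.Agent.Lib.MP_305fdd_al.Fr.F.Gal

/-!
# MP_305fdd_al, F_r, block LAURENT: from a Laurent structure of the ring of traces to property `Q`
-/

set_option autoImplicit false
set_option linter.unusedSectionVars false

namespace Pool.Agent.FrL

open Matrix Pool.Agent.FrF Pool.Agent.F2RF Pool.Agent.F2Ch

section
variable {E ι : Type} [Field E]

/-- the Laurent polynomials with exponents in `L` -/
abbrev RL (E : Type) [Field E] {ι : Type} (L : AddSubgroup (ι → ℤ)) := AddMonoidAlgebra E L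

/-- the inclusion of the ring of the Laurent polynomials with exponents in `L` -/
noncomputable def jL (E : Type) [Field E] {ι : Type} (L : AddSubgroup (ι → ℤ)) : RL E L →+* LR E ι :=
  AddMonoidAlgebra.mapDomainRingHom E L.subtype

theorem jL_single (L : AddSubgroup (ι → ℤ)) (l : L) (a : E) :
    jL E L (AddMonoidAlgebra.single l a) = AddMonoidAlgebra.single (l : ι → ℤ) a := by
  simp [jL]

theorem jL_inj (L : AddSubgroup (ι → ℤ)) : Function.Injective (jL E L) :=
  AddMonoidAlgebra.mapDomain_injective Subtype.val_injective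

theorem mem_jL (L : AddSubgroup (ι → ℤ)) (f : LR E ι) (hf : ∀ n, f.coeff n ≠ 0 → n ∈ L) :
    ∃ g, jL E L g = f := by
  refine ⟨AddMonoidAlgebra.ofCoeff (f.coeff.comapDomain (fun l : L => (l : ι → ℤ))
    Subtype.val_injective.injOn), ?_⟩
  apply AddMonoidAlgebra.ext
  refine Finsupp.mapDomain_comapDomain (fun l : L => (l : ι → ℤ)) Subtype.val_injective _ ?_
  intro n hn
  exact ⟨⟨n, hf n (Finsupp.mem_support_iff.1 hn)⟩, rfl⟩

theorem jL_coeff (L : AddSubgroup (ι → ℤ)) (g : RL E L) (n : ι → ℤ) (h : (jL E L g).coeff n ≠ 0) :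
    n ∈ L := by
  classical
  by_contra hn
  apply h
  change Finsupp.mapDomain _ _ _ = 0
  refine Finsupp.mapDomain_of_notMem_range _ _ ?_
  rintro ⟨l, rfl⟩
  exact hn l.2

instance uniqueSums (L : AddSubgroup (ι → ℤ)) : UniqueSums L :=
  UniqueSums.of_injective_addHom (L.subtype : L →ₙ+ (ι → ℤ)) Subtype.val_injective inferInstance

instance isDomain (L : AddSubgroup (ι → ℤ)) : IsDomain (RL E L) := inferInstance

instance finite [Finite ι] (L : AddSubgroup (ι → ℤ)) : Module.Finite ℤ L :=
  Module.Finite.of_injective L.subtype.toIntLinearMap Subtype.val_injective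

instance free [Finite ι] (L : AddSubgroup (ι → ℤ)) : Module.Free ℤ L := inferInstance

/-- the fraction field of the ring of Laurent polynomials -/
abbrev KL (E : Type) [Field E] {ι : Type} (L : AddSubgroup (ι → ℤ)) := FractionRing (RL E L)

/-- constants -/
noncomputable def iE (L : AddSubgroup (ι → ℤ)) : E →+* KL E L :=
  (algebraMap (RL E L) (KL E L)).comp AddMonoidAlgebra.singleZeroRingHom

/-- monomials -/
noncomputable def chi (L : AddSubgroup (ι → ℤ)) (l : L) : KL E L :=
  algebraMap (RL E L) (KL E L) (AddMonoidAlgebra.single l 1)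

theorem iE_apply (L : AddSubgroup (ι → ℤ)) (a : E) :
    iE L a = algebraMap (RL E L) (KL E L) (AddMonoidAlgebra.single 0 a) := rfl

theorem evG_eq (L : AddSubgroup (ι → ℤ)) (P : RL E L) :
    evG (iE L) (chi L) P.coeff = algebraMap (RL E L) (KL E L) P := by
  conv_rhs => rw [← AddMonoidAlgebra.sum_coeff_single P]
  unfold evG Finsupp.sum
  rw [map_sum]
  refine Finset.sum_congr rfl fun l _ => ?_
  change iE L (P.coeff l) * chi L l = _
  rw [iE_apply, chi, ← map_mul, AddMonoidAlgebra.single_mul_single, zero_add, mul_one]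

theorem lauG (L : AddSubgroup (ι → ℤ)) : LauG (iE (E := E) L) (chi L) where
  zero := by
    unfold chi
    exact map_one _
  add l l' := by
    unfold chi
    rw [← map_mul, AddMonoidAlgebra.single_mul_single, mul_one]
  inj P hP := by
    have h1 := evG_eq L (AddMonoidAlgebra.ofCoeff P)
    rw [AddMonoidAlgebra.coeff_ofCoeff, hP] at h1
    have h2 := (IsFractionRing.injective (RL E L) (KL E L)) (h1.symm.trans (map_zero _).symm)
    have h3 := congrArg AddMonoidAlgebra.coeff h2
    exact h3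
  frac z := by
    obtain ⟨a, b, hb, hz⟩ := IsFractionRing.div_surjective (A := RL E L) z
    have hb0 : algebraMap (RL E L) (KL E L) b ≠ 0 := by
      intro h
      exact nonZeroDivisors.ne_zero hb ((IsFractionRing.injective (RL E L) (KL E L))
        (h.trans (map_zero _).symm))
    refine ⟨a.coeff, b.coeff, ?_, ?_⟩
    · rw [evG_eq]
      exact hb0
    · rw [evG_eq, evG_eq, ← hz, div_mul_cancel₀ _ hb0]

end

section
variable {Kf K E ι : Type} [Field Kf] [Field K] [Field E] [CharP Kf 2] [CharP K 2] [CharP E 2]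
  [Algebra Kf E] [FiniteDimensional Kf E] [IsGalois Kf E] [Fintype ι]

/-- one direction of the action of a Galois automorphism on the Laurent polynomials -/
theorem gal_ex {Ω : Type} [Field Ω] {B : Type} [CommRing B] (φ : B →+* LR E ι) (w : E →+* E)
    (i : E →+* Ω) (κ : ι → Ωˣ) (ε : ι → ℤˣ) (hw : ∀ b, th (i.comp w) 1 1 (φ b) = th i κ ε (φ b))
    (f : LR E ι) (hf : f ∈ Submodule.span E (Set.range φ)) :
    ∃ f' ∈ Submodule.span E (Set.range φ), th i κ ε f' = th (i.comp w) 1 1 f := by
  induction hf using Submodule.span_induction with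
  | mem x hx =>
    obtain ⟨b, rfl⟩ := hx
    exact ⟨φ b, Submodule.subset_span ⟨b, rfl⟩, (hw b).symm⟩
  | zero => exact ⟨0, Submodule.zero_mem _, by rw [map_zero, map_zero]⟩
  | add x y _ _ hx hy =>
    obtain ⟨x', hx', h1⟩ := hx
    obtain ⟨y', hy', h2⟩ := hy
    exact ⟨x' + y', Submodule.add_mem _ hx' hy', by rw [map_add, map_add, h1, h2]⟩
  | smul c x _ hx =>
    obtain ⟨x', hx', h1⟩ := hx
    refine ⟨w c • x', Submodule.smul_mem _ _ hx', ?_⟩
    have h2 : ∀ (a : E) (f : LR E ι), a • f = AddMonoidAlgebra.single 0 a * f := by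
      intro a f
      exact Algebra.smul_def a f
    rw [h2, h2, map_mul, map_mul, h1, th_single, th_single, map_zero, map_zero, pw_zero, pw_zero]
    rfl

/-- the action of a Galois automorphism on the Laurent polynomials with exponents in `L` -/
theorem gal_equiv {B : Type} [CommRing B] (φ : B →+* LR E ι) (L : AddSubgroup (ι → ℤ))
    (hsupp : ∀ b n, (φ b).coeff n ≠ 0 → n ∈ L)
    (hspan : ∀ n ∈ L, AddMonoidAlgebra.single n (1 : E) ∈ Submodule.span E (Set.range φ))
    (w : E ≃ₐ[Kf] E)
    (hgal : ∀ w : E ≃ₐ[Kf] E, ∃ (Ω : Type) (_ : Field Ω) (i : E →+* Ω) (κ : ι → Ωˣ) (ε : ι → ℤˣ),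
      ∀ b, th (i.comp (w : E →+* E)) 1 1 (φ b) = th i κ ε (φ b)) :
    ∃ u : RL E L ≃+* RL E L, (∀ a, u (AddMonoidAlgebra.single 0 a) = AddMonoidAlgebra.single 0 (w a)) ∧
      (∀ b f, jL E L f = φ b → u f = f) ∧
      ∀ l, ∃ (c : E) (l' : L), u (AddMonoidAlgebra.single l 1) = AddMonoidAlgebra.single l' c := by
  classical
  have hr1 : ∀ f ∈ Submodule.span E (Set.range φ), ∃ g, jL E L g = f := by
    intro f hf
    apply mem_jL
    induction hf using Submodule.span_induction with
    | mem x hx =>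
      obtain ⟨b, rfl⟩ := hx
      exact hsupp b
    | zero => intro n hn; exact absurd rfl hn
    | add x y _ _ hx hy =>
      intro n hn
      rw [AddMonoidAlgebra.coeff_add, Finsupp.add_apply] at hn
      by_cases h0 : x.coeff n = 0
      · rw [h0, zero_add] at hn
        exact hy n hn
      · exact hx n h0
    | smul c x _ hx =>
      intro n hn
      rw [AddMonoidAlgebra.coeff_smul, Finsupp.smul_apply] at hn
      exact hx n (fun h => hn (by rw [h, smul_zero]))
  have hr2 : ∀ g : RL E L, jL E L g ∈ Submodule.span E (Set.range φ) := by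
    intro g
    induction g using AddMonoidAlgebra.induction_linear with
    | zero => rw [map_zero]; exact Submodule.zero_mem _
    | add f g hf hg => rw [map_add]; exact Submodule.add_mem _ hf hg
    | single l a =>
      rw [jL_single]
      have h1 := Submodule.smul_mem _ a (hspan l l.2)
      rwa [AddMonoidAlgebra.smul_single, smul_eq_mul, mul_one] at h1
  obtain ⟨Ω, _, i, κ, ε, hw⟩ := hgal w
  have h1 : ∀ f : RL E L, ∃ g : RL E L, th i κ ε (jL E L g) =
      th (i.comp (w : E →+* E)) 1 1 (jL E L f) := by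
    intro f
    obtain ⟨g', hg', hg⟩ := gal_ex φ (w : E →+* E) i κ ε hw (jL E L f) (hr2 f)
    obtain ⟨g, rfl⟩ := hr1 g' hg'
    exact ⟨g, hg⟩
  have hΘ : ∀ x y : RL E L, th i κ ε (jL E L x) = th i κ ε (jL E L y) → x = y :=
    fun x y h => jL_inj L (th_inj i κ ε h)
  have hW : ∀ x y : RL E L, th (i.comp (w : E →+* E)) 1 1 (jL E L x) =
      th (i.comp (w : E →+* E)) 1 1 (jL E L y) → x = y :=
    fun x y h => jL_inj L (th_inj _ _ _ h)
  choose u hu using h1
  let u0 : RL E L →+* RL E L :=
    { toFun := u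
      map_one' := hΘ _ _ (by rw [hu, map_one, map_one, map_one])
      map_mul' := fun x y => hΘ _ _ (by rw [hu, map_mul, map_mul, map_mul, map_mul, hu, hu])
      map_zero' := hΘ _ _ (by rw [hu, map_zero, map_zero, map_zero])
      map_add' := fun x y => hΘ _ _ (by rw [hu, map_add, map_add, map_add, map_add, hu, hu]) }
  have hu0 : ∀ f, th i κ ε (jL E L (u0 f)) = th (i.comp (w : E →+* E)) 1 1 (jL E L f) := hu
  have hinj : Function.Injective u0 := by
    intro x y h
    apply hW
    rw [← hu0, ← hu0, h]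
  have hconst : ∀ a, u0 (AddMonoidAlgebra.single 0 a) = AddMonoidAlgebra.single 0 (w a) := by
    intro a
    apply hΘ
    rw [hu0, jL_single, jL_single, th_single, th_single]
    simp only [ZeroMemClass.coe_zero, map_zero, pw_zero]
    rfl
  have hfix : ∀ b f, jL E L f = φ b → u0 f = f := by
    intro b f hf
    apply hΘ
    rw [hu0, hf, hw]
  have hsurj : Function.Surjective u0 := by
    intro g
    -- `g` is in the span
    have key : ∀ f ∈ Submodule.span E (Set.range φ), ∃ x : RL E L, jL E L (u0 x) = f := by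
      intro f hf
      induction hf using Submodule.span_induction with
      | mem x hx =>
        obtain ⟨b, rfl⟩ := hx
        obtain ⟨g, hg⟩ := hr1 (φ b) (Submodule.subset_span ⟨b, rfl⟩)
        exact ⟨g, by rw [hfix b g hg, hg]⟩
      | zero => exact ⟨0, by rw [map_zero, map_zero]⟩
      | add x y _ _ hx hy =>
        obtain ⟨x', h1⟩ := hx
        obtain ⟨y', h2⟩ := hy
        exact ⟨x' + y', by rw [map_add, map_add, h1, h2]⟩
      | smul c x _ hx =>
        obtain ⟨x', h1⟩ := hx
        refine ⟨AddMonoidAlgebra.single 0 (w.symm c) * x', ?_⟩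
        rw [map_mul, map_mul, h1, hconst, jL_single]
        rw [AlgEquiv.apply_symm_apply]
        exact (Algebra.smul_def c x).symm
    obtain ⟨x, hx⟩ := key _ (hr2 g)
    exact ⟨x, jL_inj L hx⟩
  refine ⟨RingEquiv.ofBijective u0 ⟨hinj, hsurj⟩, hconst, hfix, ?_⟩
  intro l
  have h2 := hu0 (AddMonoidAlgebra.single l 1)
  rw [jL_single, th_single] at h2
  have h3 : ∀ n, n ≠ sg ε (l : ι → ℤ) → (jL E L (u0 (AddMonoidAlgebra.single l 1))).coeff n = 0 := by
    intro n hn
    have h4 := th_coeff i κ ε (jL E L (u0 (AddMonoidAlgebra.single l 1))) (sg ε n)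
    rw [h2, sg_sg, sg_one, AddMonoidAlgebra.coeff_single, Finsupp.single_apply, if_neg] at h4
    · have h5 := (mul_eq_zero.1 h4.symm).resolve_right (Units.ne_zero _)
      rwa [map_eq_zero] at h5
    · intro h
      apply hn
      rw [h, sg_sg]
  have h6 : jL E L (u0 (AddMonoidAlgebra.single l 1)) ≠ 0 := by
    intro h0
    rw [h0, map_zero, map_one, one_mul, sg_one, pw_one, Units.val_one] at h2
    have h7 := congrArg (fun f : LR Ω ι => f.coeff (l : ι → ℤ)) h2
    simp only [AddMonoidAlgebra.coeff_single, Finsupp.single_eq_same] at h7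
    exact one_ne_zero h7.symm
  have h8 : (jL E L (u0 (AddMonoidAlgebra.single l 1))).coeff (sg ε (l : ι → ℤ)) ≠ 0 := by
    intro h0
    apply h6
    apply AddMonoidAlgebra.ext
    apply Finsupp.ext
    intro n
    by_cases hn : n = sg ε (l : ι → ℤ)
    · rw [hn, h0]
      rfl
    · rw [h3 n hn]
      rfl
  have h9 := jL_coeff L _ _ h8
  refine ⟨(jL E L (u0 (AddMonoidAlgebra.single l 1))).coeff (sg ε (l : ι → ℤ)),
    ⟨sg ε (l : ι → ℤ), h9⟩, ?_⟩
  apply jL_inj L
  change jL E L (u0 (AddMonoidAlgebra.single l 1)) = _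
  rw [jL_single]
  apply AddMonoidAlgebra.ext
  apply Finsupp.ext
  intro n
  rw [AddMonoidAlgebra.coeff_single, Finsupp.single_apply]
  by_cases hn : n = sg ε (l : ι → ℤ)
  · rw [if_pos hn.symm, hn]
  · rw [if_neg (fun h => hn h.symm), h3 n hn]

/-- THE CORE: a Laurent structure for the ring `B` over the Galois extension `E / Kf` gives
`PropQ 2 BF → PropQ 2 BK`. -/
theorem core (L : AddSubgroup (ι → ℤ)) (iFK : Kf →+* K) (B : Subring K)
    (hB : ∀ x : K, ∃ a ∈ B, ∃ b ∈ B, b ≠ 0 ∧ x * b = a)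
    (φ : B →+* LR E ι) (hφ : Function.Injective φ)
    (hsupp : ∀ b n, (φ b).coeff n ≠ 0 → n ∈ L)
    (hspan : ∀ n ∈ L, AddMonoidAlgebra.single n (1 : E) ∈ Submodule.span E (Set.range φ))
    (hgal : ∀ w : E ≃ₐ[Kf] E, ∃ (Ω : Type) (_ : Field Ω) (i : E →+* Ω) (κ : ι → Ωˣ) (ε : ι → ℤˣ),
      ∀ b, th (i.comp (w : E →+* E)) 1 1 (φ b) = th i κ ε (φ b))
    (hgen : ∀ M : Subfield Kf, (∀ k, (∃ h : iFK k ∈ B, φ ⟨iFK k, h⟩ =
      AddMonoidAlgebra.single 0 (algebraMap Kf E k)) → k ∈ M) → ∀ k, k ∈ M)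
    (hMB : ∃ (d : ℕ) (x : Fin d → Kf) (π : (Fin d → Fin 2) → Kf → Kf), MB 2 x π)
    (BF : Subring Kf) (BK : Subring K) (hBF : ∀ b ∈ BF, iFK b ∈ BK)
    (hfracF : ∀ x : Kf, ∃ a ∈ BF, ∃ b ∈ BF, b ≠ 0 ∧ x * b = a)
    (hBK : ∀ b ∈ B, b ∈ BK) (hBK' : ∀ b ∈ BK, ∃ k : Kf, k ≠ 0 ∧ iFK k * b ∈ B)
    (hQ : PropQ 2 BF) : PropQ 2 BK := by
  classical
  have h1 : ∀ b : B, ∃ g, jL E L g = φ b := fun b => mem_jL L _ (hsupp b)
  choose φ' hφ' using h1
  let φL : B →+* RL E L :=
    { toFun := φ'
      map_one' := jL_inj L (by rw [hφ', map_one, map_one])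
      map_mul' := fun x y => jL_inj L (by rw [hφ', map_mul, map_mul, hφ', hφ'])
      map_zero' := jL_inj L (by rw [hφ', map_zero, map_zero])
      map_add' := fun x y => jL_inj L (by rw [hφ', map_add, map_add, hφ', hφ']) }
  have hφL : ∀ b, jL E L (φL b) = φ b := hφ'
  have hφLi : Function.Injective φL := by
    intro x y h
    apply hφ
    rw [← hφL, ← hφL, h]
  have hfr : IsFractionRing B K := by
    refine IsFractionRing.of_field B K fun x => ?_
    obtain ⟨a, ha, b, hb, hb0, h⟩ := hB x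
    refine ⟨⟨a, ha⟩, ⟨b, hb⟩, ?_⟩
    change x = a / b
    rw [eq_div_iff hb0, h]
  have hψ : Function.Injective ((algebraMap (RL E L) (KL E L)).comp φL) := by
    rw [RingHom.coe_comp]
    exact (IsFractionRing.injective _ _).comp hφLi
  let iK : K →+* KL E L := IsFractionRing.lift hψ
  have hiK : ∀ b : B, iK (b : K) = algebraMap (RL E L) (KL E L) (φL b) :=
    fun b => IsFractionRing.lift_algebraMap hψ b
  have : CharP (KL E L) 2 := charP_of_injective_ringHom (iE (E := E) L).injective 2
  have hcomm : ∀ a, iE L (algebraMap Kf E a) = iK (iFK a) := by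
    let M : Subfield Kf := RingHom.eqLocusField ((iE L).comp (algebraMap Kf E)) (iK.comp iFK)
    intro a
    have h2 : a ∈ M := by
      refine hgen M ?_ a
      rintro k ⟨h, hk⟩
      change iE L (algebraMap Kf E k) = iK (iFK k)
      have h3 := hiK ⟨iFK k, h⟩
      rw [iE_apply]
      refine Eq.trans ?_ h3.symm
      congr 1
      apply jL_inj L
      rw [hφL, hk, jL_single]
      rfl
    exact h2
  refine lemR (iE L) iFK iK hcomm (chi L) (lauG L) ?_ hMB BF BK hBF hfracF ?_ ?_ ?_ hQ
  · intro w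
    obtain ⟨u, hu1, hu2, hu3⟩ := gal_equiv φ L hsupp hspan w hgal
    refine ⟨IsFractionRing.ringEquivOfRingEquiv u, ?_, ?_, ?_⟩
    · intro a
      rw [iE_apply, iE_apply, IsFractionRing.ringEquivOfRingEquiv_algebraMap, hu1]
    · intro z
      have h2 : ((IsFractionRing.ringEquivOfRingEquiv u : KL E L ≃+* KL E L) :
          KL E L →+* KL E L).comp iK = iK := by
        apply IsFractionRing.ringHom_ext (A := B)
        intro b
        change IsFractionRing.ringEquivOfRingEquiv u (iK (b : K)) = iK (b : K)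
        rw [hiK, IsFractionRing.ringEquivOfRingEquiv_algebraMap, hu2 b _ (hφL b)]
      exact congrFun (congrArg DFunLike.coe h2) z
    · intro l
      obtain ⟨c, l', h⟩ := hu3 l
      refine ⟨c, l', ?_⟩
      rw [chi, IsFractionRing.ringEquivOfRingEquiv_algebraMap, h, iE_apply, chi, ← map_mul,
        AddMonoidAlgebra.single_mul_single, zero_add, mul_one]
  · intro x
    obtain ⟨a, ha, b, hb, h⟩ := hB x
    exact ⟨a, hBK a ha, b, hBK b hb, h⟩
  · intro b hb
    obtain ⟨k, hk0, hk⟩ := hBK' b hb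
    refine ⟨(algebraMap Kf E k)⁻¹ • (φL ⟨_, hk⟩).coeff, ?_⟩
    have hk1 : iK (iFK k) ≠ 0 := by
      rw [Ne, map_eq_zero, map_eq_zero]
      exact hk0
    rw [evG_smul, evG_eq, ← hiK ⟨_, hk⟩, map_inv₀, hcomm]
    change (iK (iFK k))⁻¹ * iK (iFK k * b) = iK b
    rw [map_mul, inv_mul_cancel_left₀ hk1]
  · intro l
    obtain ⟨c, hc⟩ := (Finsupp.mem_span_range_iff_exists_finsupp).1 (hspan l l.2)
    let e := c.support.equivFin
    refine ⟨c.support.card, fun j => c (e.symm j : B), fun j => ((e.symm j : B) : K),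
      fun j => hBK _ (e.symm j : B).2, ?_⟩
    have h2 : AddMonoidAlgebra.single l (1 : E) =
        ∑ j : Fin c.support.card, AddMonoidAlgebra.single 0 (c (e.symm j : B)) *
          φL (e.symm j : B) := by
      apply jL_inj L
      rw [jL_single, ← hc, map_sum, Finsupp.sum]
      rw [← Finset.sum_coe_sort, ← e.symm.sum_comp]
      refine Finset.sum_congr rfl fun j _ => ?_
      rw [map_mul, hφL, jL_single]
      exact Algebra.smul_def _ _
    rw [chi, h2, map_sum]
    refine Finset.sum_congr rfl fun j _ => ?_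
    rw [map_mul, hiK, iE_apply]

end

end Pool.Agent.FrL
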