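import Pool.Agent.Lib.MP_305fdd_al.Fr.L.Data

/-!
# MP_305fdd_al, F_r, block LAURENT: the bent representation and its specialisations
-/

set_option autoImplicit false
set_option linter.unusedSectionVars false

namespace Pool.Agent.FrL

open Matrix Pool.Agent.FrS

section
variable {E ι Γ : Type} [Field E] [Group Γ]

/-- constants in the ring of Laurent polynomials -/
noncomputable def cE (E ι : Type) [Field E] : E →+* LR E ι := AddMonoidAlgebra.singleZeroRingHom

theorem cE_apply (a : E) : cE E ι a = AddMonoidAlgebra.single 0 a := rfl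

/-- monomials as units -/
noncomputable def tm (E : Type) [Field E] (n : ι → ℤ) : (LR E ι)ˣ where
  val := AddMonoidAlgebra.single n 1
  inv := AddMonoidAlgebra.single (-n) 1
  val_inv := by
    rw [AddMonoidAlgebra.single_mul_single, add_neg_cancel, mul_one]
    rfl
  inv_val := by
    rw [AddMonoidAlgebra.single_mul_single, neg_add_cancel, mul_one]
    rfl

theorem tm_val (n : ι → ℤ) : ((tm E n : (LR E ι)ˣ) : LR E ι) = AddMonoidAlgebra.single n 1 := rfl

theorem tm_inv (n : ι → ℤ) : (((tm E n)⁻¹ : (LR E ι)ˣ) : LR E ι) =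
    AddMonoidAlgebra.single (-n) 1 := rfl

theorem mp_cE_val (A : SL2 E) : (mp (cE E ι) A).1 = mono 0 A.1 := rfl

theorem mp_cE_inv_val (A : SL2 E) : ((mp (cE E ι) A)⁻¹).1 = mono 0 (A⁻¹).1 := by
  rw [← map_inv]
  rfl

theorem dg_tm_val (n : ι → ℤ) : (dg (tm E n)).1 = mono n (eps E 0) + mono (-n) (eps E 1) := by
  ext1 i j
  rw [Matrix.add_apply, mono_apply, mono_apply]
  fin_cases i <;> fin_cases j
  · change ((tm E n : (LR E ι)ˣ) : LR E ι) = _
    simp [eps, tm_val]
  · change (0 : LR E ι) = _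
    simp [eps]
  · change (0 : LR E ι) = _
    simp [eps]
  · change (((tm E n)⁻¹ : (LR E ι)ˣ) : LR E ι) = _
    simp [eps, tm_inv]

theorem glue_val (P Q : SL2 E) (n : ι → ℤ) :
    (mp (cE E ι) P * dg (tm E n) * (mp (cE E ι) Q)⁻¹).1 =
      mono n (yy P Q 0) + mono (-n) (yy P Q 1) := by
  rw [Matrix.SpecialLinearGroup.coe_mul, Matrix.SpecialLinearGroup.coe_mul, mp_cE_inv_val,
    mp_cE_val, dg_tm_val, Matrix.mul_add, Matrix.add_mul, mono_mul, mono_mul, mono_mul, mono_mul,
    zero_add, zero_add, add_zero, add_zero]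
  rfl

theorem dg_tm_inv (n : ι → ℤ) : (dg (tm E n))⁻¹ = dg (tm E (-n)) := by
  apply sl2_ext
  · rw [inv_00, dg_11, dg_00]
    rfl
  · rw [inv_01, dg_01, dg_01, neg_zero]
  · rw [inv_10, dg_10, dg_10, neg_zero]
  · rw [inv_11, dg_11, dg_00, tm_inv, neg_neg]
    rfl

/-- Two representations with gauges which agree on the vertex groups and on the edges agree on all
paths. -/
theorem path_eq (S : GG Γ) {H : Type} [Group H] (α β : Γ →* H) (a b : S.V → H)
    (hv : ∀ v, ∀ x ∈ S.G v, (a v)⁻¹ * α x * a v = (b v)⁻¹ * β x * b v)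
    (he : ∀ e, (a (S.a e))⁻¹ * α (S.s e) * a (S.b e) = (b (S.a e))⁻¹ * β (S.s e) * b (S.b e))
    {u v : S.V} {g : Γ} (h : S.Pth u v g) :
    (a u)⁻¹ * α g * a v = (b u)⁻¹ * β g * b v := by
  induction h with
  | one => rw [map_one, map_one]; group
  | @grp w g x hg hx ih =>
    rw [map_mul, map_mul]
    calc (a u)⁻¹ * (α g * α x) * a w = ((a u)⁻¹ * α g * a w) * ((a w)⁻¹ * α x * a w) := by group
      _ = ((b u)⁻¹ * β g * b w) * ((b w)⁻¹ * β x * b w) := by rw [ih, hv w x hx]
      _ = _ := by group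
  | @fwd g e hg ih =>
    rw [map_mul, map_mul]
    calc (a u)⁻¹ * (α g * α (S.s e)) * a (S.b e)
        = ((a u)⁻¹ * α g * a (S.a e)) * ((a (S.a e))⁻¹ * α (S.s e) * a (S.b e)) := by group
      _ = ((b u)⁻¹ * β g * b (S.a e)) * ((b (S.a e))⁻¹ * β (S.s e) * b (S.b e)) := by rw [ih, he e]
      _ = _ := by group
  | @bwd g e hg ih =>
    rw [map_mul, map_mul, map_inv, map_inv]
    calc (a u)⁻¹ * (α g * (α (S.s e))⁻¹) * a (S.a e)
        = ((a u)⁻¹ * α g * a (S.b e)) * ((a (S.a e))⁻¹ * α (S.s e) * a (S.b e))⁻¹ := by group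
      _ = ((b u)⁻¹ * β g * b (S.b e)) * ((b (S.a e))⁻¹ * β (S.s e) * b (S.b e))⁻¹ := by
        rw [ih, he e]
      _ = _ := by group

theorem trace_of_path_eq {R : Type} [CommRing R] {x y z w : SL2 R}
    (h : x⁻¹ * y * x = z⁻¹ * w * z) : y.1.trace = w.1.trace := by
  rw [← trace_conj x y, h, trace_conj]

end

section
variable {E Ω Γ : Type} [Field E] [Field Ω] [Group Γ]

/-- The bent representation over the ring of Laurent polynomials. -/
structure BR (S : GG Γ) {ι : E →+* Ω} {R : Γ →* SL2 Ω} (d : LD S ι R) where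
  /-- the representation -/
  rt : Γ →* SL2 (LR E S.E)
  /-- the gauge -/
  g : S.V → SL2 (LR E S.E)
  vtx : ∀ v (x : S.G v), (g v)⁻¹ * rt x * g v = mp (cE E S.E) (d.r v x)
  edg : ∀ e, (g (S.a e))⁻¹ * rt (S.s e) * g (S.b e) =
    mp (cE E S.E) (d.P e) * dg (tm E (Pi.single e 1)) * (mp (cE E S.E) (d.Q e))⁻¹

open Classical in
/-- existence of the bent representation -/
theorem exists_BR [Algebra (ZMod 2) E] (S : GG Γ) (hS : S.UP)
    (hab : ∀ e, ∀ x ∈ S.C e, ∀ y ∈ S.C e, x * y = y * x)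
    {ι : E →+* Ω} {R : Γ →* SL2 Ω} (d : LD S ι R) : Nonempty (BR S d) := by
  let F : GG.Fam S (SL2 (LR E S.E)) :=
    { r := fun v x => if h : x ∈ S.G v then mp (cE E S.E) (d.r v ⟨x, h⟩) else 1
      t := fun e => mp (cE E S.E) (d.P e) * dg (tm E (Pi.single e 1)) * (mp (cE E S.E) (d.Q e))⁻¹
      mul := by
        intro v x hx y hy
        rw [dif_pos (mul_mem hx hy), dif_pos hx, dif_pos hy, ← map_mul, ← map_mul]
        rfl
      cm := by
        intro e c hc
        obtain ⟨u, h1, h2⟩ := d.edge hab e c hc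
        rw [dif_pos (S.Ca e hc), dif_pos (S.Cb e c hc), h1, h2]
        simp only [map_mul, map_inv, mp_dg]
        have h5 := dg_comm (tm E (Pi.single e (1 : ℤ)))
          (Units.map ((cE E S.E : E →+* LR E S.E) : E →* LR E S.E) u)
        calc mp (cE E S.E) (d.P e) * dg (Units.map ((cE E S.E : E →+* LR E S.E) : E →* LR E S.E) u) *
              (mp (cE E S.E) (d.P e))⁻¹
            = mp (cE E S.E) (d.P e) *
              (dg (Units.map ((cE E S.E : E →+* LR E S.E) : E →* LR E S.E) u) *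
                dg (tm E (Pi.single e (1 : ℤ)))) * (dg (tm E (Pi.single e (1 : ℤ))))⁻¹ *
              (mp (cE E S.E) (d.P e))⁻¹ := by group
          _ = _ := by
            rw [← h5]
            group }
  obtain ⟨r, g, hrg⟩ := hS.ext (LR E S.E) F
  refine ⟨⟨r, g, fun v x => ?_, fun e => (hrg.edg e).symm⟩⟩
  rw [← hrg.vtx v x x.2]
  exact dif_pos x.2

end

end Pool.Agent.FrL
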