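import Pool.Agent.Lib.MP_305fdd_al.Fr.L.Edge

/-!
# MP_305fdd_al, F_r, block LAURENT: normal forms at the vertices and edges of a splitting
-/

set_option autoImplicit false
set_option linter.unusedSectionVars false

namespace Pool.Agent.FrL

open Matrix Pool.Agent.FrS

section
variable {E Ω Γ : Type} [Field E] [Field Ω] [Group Γ]

/-- Normal forms over `E` of the representation `R` over `Ω` on the vertex groups and at the edges. -/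
structure LD (S : GG Γ) (ι : E →+* Ω) (R : Γ →* SL2 Ω) where
  /-- gauge -/
  q : S.V → SL2 Ω
  /-- the representations over `E` -/
  r : ∀ v, S.G v →* SL2 E
  hr : ∀ v (x : S.G v), mp ι (r v x) = (q v)⁻¹ * R x * q v
  na : ∀ v, S.NA v → Submodule.span E (Set.range fun g => (r v g).1) = ⊤
  ab : ∀ v, ¬ S.NA v → ∀ x, ∃ u : Eˣ, r v x = dg u
  ab' : ∀ v, ¬ S.NA v → ∃ x, ∃ u : Eˣ, r v x = dg u ∧ (u : E) ≠ ((u⁻¹ : Eˣ) : E)
  irr : ∀ v, S.NA v → ∃ x y : S.G v, (r v (x * y * x⁻¹ * y⁻¹)).1.trace ≠ 2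
  z : ∀ v, ∃ (x : S.G v) (u : Eˣ), (u : E) ≠ ((u⁻¹ : Eˣ) : E) ∧
    (r v x).1.trace = u + ((u⁻¹ : Eˣ) : E)
  /-- eigenbases at the first end -/
  P : S.E → SL2 E
  /-- eigenbases at the second end -/
  Q : S.E → SL2 E
  /-- eigenvalues -/
  ψ : S.E → Eˣ
  hψ : ∀ e, (ψ e : E) ≠ (((ψ e)⁻¹ : Eˣ) : E)
  /-- elements of the edge groups -/
  y : ∀ e, S.C e
  hP : ∀ e, r (S.a e) ⟨y e, S.Ca e (y e).2⟩ = P e * dg (ψ e) * (P e)⁻¹
  hQ : ∀ e, r (S.b e) ⟨_, S.Cb e (y e) (y e).2⟩ = Q e * dg (ψ e) * (Q e)⁻¹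
  /-- gluing parameters -/
  lam : S.E → Ωˣ
  hW : ∀ e, (q (S.a e))⁻¹ * R (S.s e) * q (S.b e) = mp ι (P e) * dg (lam e) * (mp ι (Q e))⁻¹

theorem dg_comm {R : Type} [CommRing R] (s t : Rˣ) : dg s * dg t = dg t * dg s := by
  apply sl2_ext
  · rw [mul_00, mul_00, dg_00, dg_00, dg_01, dg_01]
    ring
  · rw [mul_01, mul_01, dg_01, dg_01]
    ring
  · rw [mul_10, mul_10, dg_10, dg_10]
    ring
  · rw [mul_11, mul_11, dg_11, dg_11, dg_01, dg_01]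
    ring

/-- existence of the normal forms -/
theorem exists_LD (S : GG Γ) (ι : E →+* Ω) (R : Γ →* SL2 Ω)
    (hsq : ∀ x : Ω, ∃ y, y * y = x)
    (hT : ∀ v, ∀ x ∈ S.G v, (R x).1.trace ∈ ι.range)
    (hirr : ∀ a b : Γ, a * b ≠ b * a → (R (a * b * a⁻¹ * b⁻¹)).1.trace ≠ 2)
    (hv : ∀ v, ∃ z ∈ S.G v, ∃ ψ : Eˣ, (ψ : E) ≠ ((ψ⁻¹ : Eˣ) : E) ∧
      (R z).1.trace = ι (ψ + ((ψ⁻¹ : Eˣ) : E)))
    (he : ∀ e, ∃ z ∈ S.C e, ∃ ψ : Eˣ, (ψ : E) ≠ ((ψ⁻¹ : Eˣ) : E) ∧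
      (R z).1.trace = ι (ψ + ((ψ⁻¹ : Eˣ) : E))) : Nonempty (LD S ι R) := by
  have h1 : ∀ v, ∃ (q : SL2 Ω) (r : S.G v →* SL2 E), (∀ x : S.G v, mp ι (r x) = q⁻¹ * R x * q) ∧
      (S.NA v → Submodule.span E (Set.range fun g => (r g).1) = ⊤) ∧
      (¬ S.NA v → ∀ x, ∃ u : Eˣ, r x = dg u) ∧
      (¬ S.NA v → ∃ x, ∃ u : Eˣ, r x = dg u ∧ (u : E) ≠ ((u⁻¹ : Eˣ) : E)) ∧
      (S.NA v → ∃ x y : S.G v, (r (x * y * x⁻¹ * y⁻¹)).1.trace ≠ 2) ∧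
      (∃ (x : S.G v) (u : Eˣ), (u : E) ≠ ((u⁻¹ : Eˣ) : E) ∧
        (r x).1.trace = u + ((u⁻¹ : Eˣ) : E)) := by
    intro v
    obtain ⟨z, hz, ψ, hψ, hzt⟩ := hv v
    by_cases hn : S.NA v
    · have hn' := hn
      unfold GG.NA at hn'
      push Not at hn'
      obtain ⟨a, ha, b, hb, hab⟩ := hn'
      obtain ⟨q, r, hr, hsp⟩ := nf ι hsq (R.comp (S.G v).subtype) (fun g => hT v g g.2) ⟨z, hz⟩ ψ hψ
        hzt ⟨⟨a, ha⟩, ⟨b, hb⟩, hirr a b hab⟩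
      refine ⟨q, r, hr, fun _ => hsp, fun h => absurd hn h, fun h => absurd hn h,
        fun _ => ⟨⟨a, ha⟩, ⟨b, hb⟩, fun h => hirr a b hab ?_⟩, ⟨z, hz⟩, ψ, hψ, ?_⟩
      · have h1 := hr (⟨a, ha⟩ * ⟨b, hb⟩ * (⟨a, ha⟩ : S.G v)⁻¹ * (⟨b, hb⟩ : S.G v)⁻¹)
        have h2 := congrArg (fun M => (M : SL2 Ω).1.trace) h1
        simp only [mp_trace, trace_conj] at h2
        rw [h, map_ofNat] at h2
        exact h2.symm
      · apply ι.injective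
        rw [← mp_trace, hr, trace_conj]
        exact hzt
    · have hn' := hn
      unfold GG.NA at hn'
      push Not at hn'
      obtain ⟨q, χ, hχz, hχ⟩ := cyl ι (R.comp (S.G v).subtype) (fun g => hT v g g.2) ⟨z, hz⟩
        (fun g => Subtype.ext (hn' g g.2 z hz)) ψ hψ hzt
      have hm : ∀ s t : Eˣ, dg (s * t) = dg s * dg t := by
        intro s t
        apply sl2_ext
        · rw [mul_00, dg_00, dg_00, dg_00, dg_01, Units.val_mul]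
          ring
        · rw [mul_01, dg_01, dg_01, dg_01]
          ring
        · rw [mul_10, dg_10, dg_10, dg_10]
          ring
        · rw [mul_11, dg_11, dg_11, dg_11, dg_01, mul_inv, Units.val_mul]
          ring
      refine ⟨q, MonoidHom.mk' (fun x => dg (χ x)) (fun x y => by rw [map_mul, hm]), ?_,
        fun h => absurd h hn, fun _ x => ⟨χ x, rfl⟩, fun _ => ⟨⟨z, hz⟩, ψ, ?_, hψ⟩,
        fun h => absurd h hn, ⟨z, hz⟩, ψ, hψ, ?_⟩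
      · intro x
        rw [MonoidHom.mk'_apply, mp_dg]
        exact (hχ x).symm
      · rw [MonoidHom.mk'_apply, hχz]
      · rw [MonoidHom.mk'_apply, hχz, Matrix.trace_fin_two, dg_00, dg_11]
  choose q r hr hna hab hab' hirr' hz' using h1
  have h2 : ∀ e, ∃ (P Q : SL2 E) (ψ : Eˣ) (y : S.C e) (lam : Ωˣ),
      (ψ : E) ≠ ((ψ⁻¹ : Eˣ) : E) ∧
      r (S.a e) ⟨y, S.Ca e y.2⟩ = P * dg ψ * P⁻¹ ∧
      r (S.b e) ⟨_, S.Cb e y y.2⟩ = Q * dg ψ * Q⁻¹ ∧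
      (q (S.a e))⁻¹ * R (S.s e) * q (S.b e) = mp ι P * dg lam * (mp ι Q)⁻¹ := by
    intro e
    obtain ⟨z, hz, ψ, hψ, hzt⟩ := he e
    have ht1 : (r (S.a e) ⟨z, S.Ca e hz⟩).1.trace = ψ + ((ψ⁻¹ : Eˣ) : E) := by
      apply ι.injective
      rw [← mp_trace, hr, trace_conj, hzt]
    have ht2 : (r (S.b e) ⟨_, S.Cb e z hz⟩).1.trace = ψ + ((ψ⁻¹ : Eˣ) : E) := by
      apply ι.injective
      rw [← mp_trace, hr, trace_conj, map_mul, map_mul, map_inv, trace_conj, hzt]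
    obtain ⟨P, hP⟩ := exists_diag _ ψ hψ ht1
    obtain ⟨Q, hQ⟩ := exists_diag _ ψ hψ ht2
    have hψ' : ((Units.map (ι : E →* Ω) ψ : Ωˣ) : Ω) ≠
        (((Units.map (ι : E →* Ω) ψ)⁻¹ : Ωˣ) : Ω) := by
      intro h
      apply hψ
      apply ι.injective
      exact h
    have hc : (mp ι P)⁻¹ * ((q (S.a e))⁻¹ * R (S.s e) * q (S.b e)) * mp ι Q *
        dg (Units.map (ι : E →* Ω) ψ) = dg (Units.map (ι : E →* Ω) ψ) *
        ((mp ι P)⁻¹ * ((q (S.a e))⁻¹ * R (S.s e) * q (S.b e)) * mp ι Q) := by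
      have e1 : dg (Units.map (ι : E →* Ω) ψ) =
          (mp ι P)⁻¹ * ((q (S.a e))⁻¹ * R z * q (S.a e)) * mp ι P := by
        rw [← mp_dg, ← hP, map_mul, map_mul, map_inv, hr]
      have e2 : dg (Units.map (ι : E →* Ω) ψ) =
          (mp ι Q)⁻¹ * ((q (S.b e))⁻¹ * R ((S.s e)⁻¹ * z * S.s e) * q (S.b e)) * mp ι Q := by
        rw [← mp_dg, ← hQ, map_mul, map_mul, map_inv, hr]
      conv_lhs => rw [e2]
      conv_rhs => rw [e1]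
      rw [map_mul, map_mul, map_inv]
      group
    obtain ⟨lam, hlam⟩ := diag_of_comm _ hψ' _ hc
    refine ⟨P, Q, ψ, ⟨z, hz⟩, lam, hψ, ?_, ?_, ?_⟩
    · rw [← hP]
      group
    · rw [← hQ]
      group
    · rw [← hlam]
      group
  choose P Q ψ y lam hψ hP hQ hW using h2
  exact ⟨⟨q, r, hr, hna, hab, hab', hirr', hz', P, Q, ψ, hψ, y, hP, hQ, lam, hW⟩⟩

/-- all elements of an edge group are diagonal with the same eigenvalues at both ends -/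
theorem LD.edge {S : GG Γ} {ι : E →+* Ω} {R : Γ →* SL2 Ω} (d : LD S ι R)
    (hab : ∀ e, ∀ x ∈ S.C e, ∀ y ∈ S.C e, x * y = y * x) (e : S.E) (c : Γ) (hc : c ∈ S.C e) :
    ∃ u : Eˣ, d.r (S.a e) ⟨c, S.Ca e hc⟩ = d.P e * dg u * (d.P e)⁻¹ ∧
      d.r (S.b e) ⟨_, S.Cb e c hc⟩ = d.Q e * dg u * (d.Q e)⁻¹ := by
  have h1 : (d.P e)⁻¹ * d.r (S.a e) ⟨c, S.Ca e hc⟩ * d.P e * dg (d.ψ e) =
      dg (d.ψ e) * ((d.P e)⁻¹ * d.r (S.a e) ⟨c, S.Ca e hc⟩ * d.P e) := by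
    have e1 : dg (d.ψ e) = (d.P e)⁻¹ * d.r (S.a e) ⟨d.y e, S.Ca e (d.y e).2⟩ * d.P e := by
      rw [d.hP]
      group
    have e2 : d.r (S.a e) ⟨c, S.Ca e hc⟩ * d.r (S.a e) ⟨d.y e, S.Ca e (d.y e).2⟩ =
        d.r (S.a e) ⟨d.y e, S.Ca e (d.y e).2⟩ * d.r (S.a e) ⟨c, S.Ca e hc⟩ := by
      rw [← map_mul, ← map_mul]
      congr 1
      exact Subtype.ext (hab e c hc (d.y e) (d.y e).2)
    rw [e1]
    calc (d.P e)⁻¹ * d.r (S.a e) ⟨c, S.Ca e hc⟩ * d.P e *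
          ((d.P e)⁻¹ * d.r (S.a e) ⟨d.y e, S.Ca e (d.y e).2⟩ * d.P e)
        = (d.P e)⁻¹ * (d.r (S.a e) ⟨c, S.Ca e hc⟩ * d.r (S.a e) ⟨d.y e, S.Ca e (d.y e).2⟩) *
          d.P e := by group
      _ = _ := by rw [e2]; group
  obtain ⟨u, hu⟩ := diag_of_comm _ (d.hψ e) _ h1
  refine ⟨u, by rw [← hu]; group, ?_⟩
  apply mp_inj ι ι.injective
  have h2 : mp ι (d.r (S.a e) ⟨c, S.Ca e hc⟩) = mp ι (d.P e * dg u * (d.P e)⁻¹) := by
    rw [← hu]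
    congr 1
    group
  rw [d.hr, map_mul, map_mul, map_inv, mp_dg] at h2
  rw [d.hr, map_mul, map_mul, map_mul, map_mul, map_inv, map_inv, mp_dg]
  have h4 : R (S.s e) * d.q (S.b e) =
      d.q (S.a e) * (mp ι (d.P e) * dg (d.lam e) * (mp ι (d.Q e))⁻¹) := by
    rw [← d.hW e]
    group
  have h5 : (dg (d.lam e))⁻¹ * dg (Units.map (ι : E →* Ω) u) * dg (d.lam e) =
      dg (Units.map (ι : E →* Ω) u) := by
    rw [mul_assoc, dg_comm, inv_mul_cancel_left]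
  change (d.q (S.b e))⁻¹ * ((R (S.s e))⁻¹ * R c * R (S.s e)) * d.q (S.b e) = _
  calc (d.q (S.b e))⁻¹ * ((R (S.s e))⁻¹ * R c * R (S.s e)) * d.q (S.b e)
      = (R (S.s e) * d.q (S.b e))⁻¹ * R c * (R (S.s e) * d.q (S.b e)) := by group
    _ = mp ι (d.Q e) * (dg (d.lam e))⁻¹ * (mp ι (d.P e))⁻¹ *
        ((d.q (S.a e))⁻¹ * R c * d.q (S.a e)) * (mp ι (d.P e) * dg (d.lam e) * (mp ι (d.Q e))⁻¹) := by
        rw [h4]
        group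
    _ = mp ι (d.Q e) * ((dg (d.lam e))⁻¹ * dg (Units.map (ι : E →* Ω) u) * dg (d.lam e)) *
        (mp ι (d.Q e))⁻¹ := by
        rw [h2]
        group
    _ = _ := by rw [h5]

end

end Pool.Agent.FrL
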