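import Mathlib

/-!
# MP_305fdd_al, F_r, block LAURENT: the span of the path matrices is spanned by monomials

`R = E[ι → ℤ]`.  `N u v g` are matrices over `R` (`g` in a group, `u`, `v` vertices) with
`N u v g * N v w h = N u w (g * h)`.
-/

set_option autoImplicit false
set_option linter.unusedSectionVars false

namespace Pool.Agent.FrL

open Matrix

section
variable {E ι : Type} [Field E]

/-- the Laurent polynomials -/
abbrev LR (E ι : Type) [Field E] := AddMonoidAlgebra E (ι → ℤ)

/-- the monomial matrix `t ^ n A` -/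
noncomputable def mono (n : ι → ℤ) (A : Matrix (Fin 2) (Fin 2) E) : Matrix (Fin 2) (Fin 2) (LR E ι) :=
  A.map (AddMonoidAlgebra.single n)

theorem mono_apply (n : ι → ℤ) (A : Matrix (Fin 2) (Fin 2) E) (i j : Fin 2) :
    mono n A i j = AddMonoidAlgebra.single n (A i j) := rfl

theorem mono_mul (n m : ι → ℤ) (A B : Matrix (Fin 2) (Fin 2) E) :
    mono n A * mono m B = mono (n + m) (A * B) := by
  ext1 i j
  rw [Matrix.mul_apply, mono_apply, Matrix.mul_apply, Fin.sum_univ_two, Fin.sum_univ_two]
  simp only [mono_apply, AddMonoidAlgebra.single_mul_single, AddMonoidAlgebra.single_add]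

theorem mono_add (n : ι → ℤ) (A B : Matrix (Fin 2) (Fin 2) E) :
    mono n (A + B) = mono n A + mono n B := by
  ext1 i j
  simp only [mono_apply, Matrix.add_apply, AddMonoidAlgebra.single_add]

theorem mono_smul (n : ι → ℤ) (c : E) (A : Matrix (Fin 2) (Fin 2) E) :
    mono n (c • A) = c • mono n A := by
  ext1 i j
  simp only [mono_apply, Matrix.smul_apply, AddMonoidAlgebra.smul_single]

theorem mono_zero (n : ι → ℤ) : mono n (0 : Matrix (Fin 2) (Fin 2) E) = 0 := by
  ext1 i j
  simp only [mono_apply, Matrix.zero_apply, AddMonoidAlgebra.single_zero]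

theorem mono_one : mono (0 : ι → ℤ) (1 : Matrix (Fin 2) (Fin 2) E) = 1 := by
  ext1 i j
  rw [mono_apply]
  fin_cases i <;> fin_cases j <;> simp [AddMonoidAlgebra.one_def]

/-- `mono n` as a linear map -/
noncomputable def monoL (n : ι → ℤ) :
    Matrix (Fin 2) (Fin 2) E →ₗ[E] Matrix (Fin 2) (Fin 2) (LR E ι) where
  toFun := mono n
  map_add' := mono_add n
  map_smul' := mono_smul n

end

section
variable {E ι Γ V : Type} [Field E] [Group Γ]

/-- the span of the matrices `N u v g` -/
noncomputable def Sp (N : V → V → Γ → Matrix (Fin 2) (Fin 2) (LR E ι)) (u v : V) :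
    Submodule E (Matrix (Fin 2) (Fin 2) (LR E ι)) :=
  Submodule.span E (Set.range (N u v))

theorem Sp_mem (N : V → V → Γ → Matrix (Fin 2) (Fin 2) (LR E ι)) (u v : V) (g : Γ) :
    N u v g ∈ Sp N u v := Submodule.subset_span ⟨g, rfl⟩

theorem Sp_mul {N : V → V → Γ → Matrix (Fin 2) (Fin 2) (LR E ι)}
    (hN : ∀ u v w g h, N u v g * N v w h = N u w (g * h)) {u v w : V}
    {A B : Matrix (Fin 2) (Fin 2) (LR E ι)} (hA : A ∈ Sp N u v) (hB : B ∈ Sp N v w) :
    A * B ∈ Sp N u w := by
  have h1 := Submodule.mul_mem_mul hA hB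
  rw [Sp, Sp, Submodule.span_mul_span] at h1
  refine Submodule.span_mono ?_ h1
  rintro _ ⟨_, ⟨g, rfl⟩, _, ⟨h, rfl⟩, rfl⟩
  exact ⟨g * h, (hN u v w g h).symm⟩

/-- the span of the symmetric monomials -/
noncomputable def Hs (N : V → V → Γ → Matrix (Fin 2) (Fin 2) (LR E ι))
    (J : V → Matrix (Fin 2) (Fin 2) E) (u v : V) :
    Submodule E (Matrix (Fin 2) (Fin 2) (LR E ι)) :=
  Submodule.span E {M | ∃ (n : ι → ℤ) (B : Matrix (Fin 2) (Fin 2) E), M = mono n B ∧
    mono n B ∈ Sp N u v ∧ mono (-n) (B * J v) ∈ Sp N u v}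

/-- the step inside a vertex group -/
theorem Hs_grp {N : V → V → Γ → Matrix (Fin 2) (Fin 2) (LR E ι)}
    (hN : ∀ u v w g h, N u v g * N v w h = N u w (g * h)) {J J' : V → Matrix (Fin 2) (Fin 2) E}
    (hJ : ∀ v, J v * J' v = 1) {u v : V} {a : Matrix (Fin 2) (Fin 2) E}
    (ha : mono 0 a ∈ Sp N v v) (ha' : mono 0 (J' v * a * J v) ∈ Sp N v v)
    {M : Matrix (Fin 2) (Fin 2) (LR E ι)} (hM : M ∈ Hs N J u v) : M * mono 0 a ∈ Hs N J u v := by
  induction hM using Submodule.span_induction with
  | mem M h =>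
    obtain ⟨n, B, rfl, h1, h2⟩ := h
    refine Submodule.subset_span ⟨n, B * a, ?_, ?_, ?_⟩
    · rw [mono_mul, add_zero]
    · have := Sp_mul hN h1 ha
      rwa [mono_mul, add_zero] at this
    · have := Sp_mul hN h2 ha'
      rw [mono_mul, add_zero] at this
      have h3 : B * J v * (J' v * a * J v) = B * a * J v := by
        calc B * J v * (J' v * a * J v) = B * (J v * J' v) * a * J v := by
              simp only [Matrix.mul_assoc]
          _ = B * a * J v := by rw [hJ, Matrix.mul_one]
      rwa [h3] at this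
  | zero => rw [Matrix.zero_mul]; exact Submodule.zero_mem _
  | add x y _ _ hx hy => rw [Matrix.add_mul]; exact Submodule.add_mem _ hx hy
  | smul c x _ hx => rw [Matrix.smul_mul]; exact Submodule.smul_mem _ c hx

/-- one half of the step along an edge -/
theorem Hs_edge {N : V → V → Γ → Matrix (Fin 2) (Fin 2) (LR E ι)}
    (hN : ∀ u v w g h, N u v g * N v w h = N u w (g * h)) {J J' : V → Matrix (Fin 2) (Fin 2) E}
    (hJ : ∀ v, J v * J' v = 1) {u v w : V} {δ : ι → ℤ} {Y0 Y1 a b : Matrix (Fin 2) (Fin 2) E}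
    (h0 : mono δ Y0 ∈ Sp N v w) (h1 : mono (-δ) Y1 ∈ Sp N v w)
    (ha : mono 0 a ∈ Sp N v v) (hb : mono 0 b ∈ Sp N w w)
    (hab : J' v * Y0 * J w = a * Y1 * b)
    {M : Matrix (Fin 2) (Fin 2) (LR E ι)} (hM : M ∈ Hs N J u v) : M * mono δ Y0 ∈ Hs N J u w := by
  induction hM using Submodule.span_induction with
  | mem M h =>
    obtain ⟨n, B, rfl, h2, h3⟩ := h
    refine Submodule.subset_span ⟨n + δ, B * Y0, ?_, ?_, ?_⟩
    · rw [mono_mul]
    · have := Sp_mul hN h2 h0
      rwa [mono_mul] at this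
    · have := Sp_mul hN (Sp_mul hN (Sp_mul hN h3 ha) h1) hb
      rw [mono_mul, mono_mul, mono_mul, add_zero, add_zero, ← neg_add] at this
      have h4 : B * J v * a * Y1 * b = B * Y0 * J w := by
        calc B * J v * a * Y1 * b = B * J v * (a * Y1 * b) := by simp only [Matrix.mul_assoc]
          _ = B * (J v * J' v) * Y0 * J w := by rw [← hab]; simp only [Matrix.mul_assoc]
          _ = B * Y0 * J w := by rw [hJ, Matrix.mul_one]
      rwa [h4] at this
  | zero => rw [Matrix.zero_mul]; exact Submodule.zero_mem _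
  | add x y _ _ hx hy => rw [Matrix.add_mul]; exact Submodule.add_mem _ hx hy
  | smul c x _ hx => rw [Matrix.smul_mul]; exact Submodule.smul_mem _ c hx

/-- the final form: a group of exponents -/
theorem Hs_final {N : V → V → Γ → Matrix (Fin 2) (Fin 2) (LR E ι)}
    (hN : ∀ u v w g h, N u v g * N v w h = N u w (g * h)) (hN1 : ∀ v, N v v 1 = 1)
    {J : V → Matrix (Fin 2) (Fin 2) E} {v : V} (hJv : J v = 1)
    (hall : ∀ A, mono 0 A ∈ Sp N v v) (hH : ∀ g, N v v g ∈ Hs N J v v) :
    ∃ L : AddSubgroup (ι → ℤ), (∀ g, ∀ n, (N v v g).trace.coeff n ≠ 0 → n ∈ L) ∧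
      ∀ n ∈ L, AddMonoidAlgebra.single n 1 ∈
        Submodule.span E (Set.range fun g => (N v v g).trace) := by
  classical
  have hkey : ∀ n (B : Matrix (Fin 2) (Fin 2) E), B ≠ 0 → mono n B ∈ Sp N v v →
      mono n 1 ∈ Sp N v v := by
    intro n B hB hmem
    obtain ⟨i, j, hij⟩ : ∃ i j, B i j ≠ 0 := by
      by_contra hn
      push Not at hn
      exact hB (by ext i j; exact hn i j)
    have h1 : (1 : Matrix (Fin 2) (Fin 2) E) =
        ∑ k : Fin 2, Matrix.single k i (B i j)⁻¹ * B * Matrix.single j k 1 := by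
      have h2 : ∀ k : Fin 2, Matrix.single k i (B i j)⁻¹ * B * Matrix.single j k (1 : E) =
          Matrix.single k k (1 : E) := by
        intro k
        rw [Matrix.single_mul_mul_single, mul_one, inv_mul_cancel₀ hij]
      simp only [h2]
      rw [Matrix.sum_single_one]
    rw [h1]
    have h3 : mono n (∑ k : Fin 2, Matrix.single k i (B i j)⁻¹ * B * Matrix.single j k 1) =
        ∑ k : Fin 2, mono n (Matrix.single k i (B i j)⁻¹ * B * Matrix.single j k 1) :=
      map_sum (monoL n) _ _
    rw [h3]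
    refine Submodule.sum_mem _ fun k _ => ?_
    have h4 := Sp_mul hN (Sp_mul hN (hall (Matrix.single k i (B i j)⁻¹)) hmem)
      (hall (Matrix.single j k 1))
    rwa [mono_mul, mono_mul, add_zero, zero_add] at h4
  let L : AddSubgroup (ι → ℤ) :=
    { carrier := {n | mono n 1 ∈ Sp N v v ∧ mono (-n) 1 ∈ Sp N v v}
      zero_mem' := by
        have h1 := hall (1 : Matrix (Fin 2) (Fin 2) E)
        refine ⟨h1, ?_⟩
        rw [neg_zero]
        exact h1
      add_mem' := by
        rintro n m ⟨h1, h2⟩ ⟨h3, h4⟩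
        have h5 := Sp_mul hN h1 h3
        have h6 := Sp_mul hN h2 h4
        rw [mono_mul, Matrix.one_mul] at h5 h6
        refine ⟨h5, ?_⟩
        rw [neg_add]
        exact h6
      neg_mem' := by
        rintro n ⟨h1, h2⟩
        refine ⟨h2, ?_⟩
        rw [neg_neg]
        exact h1 }
  have hL : ∀ n, n ∈ L ↔ mono n 1 ∈ Sp N v v ∧ mono (-n) 1 ∈ Sp N v v := fun n => Iff.rfl
  refine ⟨L, ?_, ?_⟩
  · intro g
    have h1 := hH g
    have key : ∀ M ∈ Hs N J v v, ∀ n, M.trace.coeff n ≠ 0 → n ∈ L := by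
      intro M hM
      induction hM using Submodule.span_induction with
      | mem M h =>
        obtain ⟨n, B, rfl, h2, h3⟩ := h
        intro m hm
        rw [hJv, Matrix.mul_one] at h3
        have hB : B ≠ 0 := by
          rintro rfl
          rw [mono_zero, Matrix.trace_zero] at hm
          exact hm rfl
        have hmn : m = n := by
          by_contra hne
          apply hm
          rw [Matrix.trace_fin_two, mono_apply, mono_apply, ← AddMonoidAlgebra.single_add,
            AddMonoidAlgebra.coeff_single, Finsupp.single_apply, if_neg (fun h => hne h.symm)]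
        rw [hmn, hL]
        exact ⟨hkey n B hB h2, hkey (-n) B hB h3⟩
      | zero => intro n hn; rw [Matrix.trace_zero] at hn; exact absurd rfl hn
      | add x y _ _ hx hy =>
        intro n hn
        rw [Matrix.trace_add, AddMonoidAlgebra.coeff_add, Finsupp.add_apply] at hn
        by_cases h0 : x.trace.coeff n = 0
        · rw [h0, zero_add] at hn
          exact hy n hn
        · exact hx n h0
      | smul c x _ hx =>
        intro n hn
        rw [Matrix.trace_smul, AddMonoidAlgebra.coeff_smul, Finsupp.smul_apply] at hn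
        exact hx n (fun h => hn (by rw [h, smul_zero]))
    exact key _ h1
  · rintro n ⟨h1, -⟩
    have h2 := Sp_mul hN (hall (Matrix.single 0 0 1)) h1
    rw [mono_mul, zero_add, Matrix.mul_one] at h2
    have h3 : AddMonoidAlgebra.single n (1 : E) =
        (mono n (Matrix.single (0 : Fin 2) (0 : Fin 2) (1 : E))).trace := by
      rw [Matrix.trace_fin_two, mono_apply, mono_apply]
      simp
    rw [h3]
    have h4 : Submodule.map (Matrix.traceLinearMap (Fin 2) E (LR E ι)) (Sp N v v) =
        Submodule.span E (Set.range fun g => (N v v g).trace) := by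
      rw [Sp, Submodule.map_span, ← Set.range_comp]
      rfl
    rw [← h4]
    exact ⟨_, h2, rfl⟩

end

end Pool.Agent.FrL
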