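import Pool.Agent.Lib.MP_305fdd_al.Fr.L.Mat
import Pool.Agent.Lib.MP_305fdd_al.Fr.L.Span
import Pool.Agent.Lib.MP_305fdd_al.Fr.S.Defs

/-!
# MP_305fdd_al, F_r, block LAURENT: the span of the path matrices of a splitting
-/

set_option autoImplicit false
set_option linter.unusedSectionVars false

namespace Pool.Agent.FrL

open Matrix Pool.Agent.FrS

section
variable {E ι Γ V : Type} [Field E] [Group Γ]

/-- the diagonal idempotents -/
def eps (E : Type) [Field E] (i : Fin 2) : Matrix (Fin 2) (Fin 2) E := Matrix.single i i 1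

/-- the matrix which exchanges the two axes -/
def jm (E : Type) [CommRing E] : SL2 E := mk2 0 1 (-1) 0 (by ring)

theorem eps_mul (i : Fin 2) : eps E i * eps E i = eps E i := by
  rw [eps, Matrix.single_mul_single_same, one_mul]

theorem eps_add : eps E 0 + eps E 1 = 1 := by
  unfold eps
  ext i j
  fin_cases i <;> fin_cases j <;> simp

theorem inv_mul_val (S : SL2 E) : (S⁻¹).1 * S.1 = 1 := by
  rw [← Matrix.SpecialLinearGroup.coe_mul, inv_mul_cancel]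
  rfl

theorem mul_inv_val (S : SL2 E) : S.1 * (S⁻¹).1 = 1 := by
  rw [← Matrix.SpecialLinearGroup.coe_mul, mul_inv_cancel]
  rfl

theorem jm_eps (i : Fin 2) : (jm E).1 * eps E (1 - i) * ((jm E)⁻¹).1 = eps E i := by
  have a0 : ((jm E)⁻¹).1 0 0 = 0 := by rw [inv_00]; rfl
  have a1 : ((jm E)⁻¹).1 0 1 = -1 := by rw [inv_01]; rfl
  have a2 : ((jm E)⁻¹).1 1 0 = 1 := by rw [inv_10]; exact neg_neg 1
  have a3 : ((jm E)⁻¹).1 1 1 = 0 := by rw [inv_11]; rfl
  have b0 : (jm E).1 0 0 = 0 := rfl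
  have b1 : (jm E).1 0 1 = 1 := rfl
  have b2 : (jm E).1 1 0 = -1 := rfl
  have b3 : (jm E).1 1 1 = 0 := rfl
  unfold eps
  ext k l
  rw [Matrix.mul_apply, Fin.sum_univ_two, Matrix.mul_apply, Fin.sum_univ_two, Matrix.mul_apply,
    Fin.sum_univ_two]
  fin_cases i <;> fin_cases k <;> fin_cases l <;>
    simp [a0, a1, a2, a3, b0, b1, b2, b3]

/-- the matrix `S ε_i S'⁻¹` -/
def yy (S S' : SL2 E) (i : Fin 2) : Matrix (Fin 2) (Fin 2) E := S.1 * eps E i * (S'⁻¹).1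

theorem yy_mul (S S' S'' : SL2 E) (i : Fin 2) : yy S S' i * yy S' S'' i = yy S S'' i := by
  unfold yy
  calc S.1 * eps E i * (S'⁻¹).1 * (S'.1 * eps E i * (S''⁻¹).1)
      = S.1 * eps E i * ((S'⁻¹).1 * S'.1) * eps E i * (S''⁻¹).1 := by
        simp only [Matrix.mul_assoc]
    _ = S.1 * (eps E i * eps E i) * (S''⁻¹).1 := by
        rw [inv_mul_val, Matrix.mul_one, Matrix.mul_assoc S.1]
    _ = _ := by rw [eps_mul]

theorem yy_add (S : SL2 E) : yy S S 0 + yy S S 1 = 1 := by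
  unfold yy
  rw [← Matrix.add_mul, ← Matrix.mul_add, eps_add, Matrix.mul_one, mul_inv_val]

theorem yy_scalar (S S' : SL2 E) (i : Fin 2) (X : Matrix (Fin 2) (Fin 2) E) :
    yy S S i * X * yy S' S' i = (((S⁻¹).1 * X * S'.1) i i) • yy S S' i := by
  unfold yy
  calc S.1 * eps E i * (S⁻¹).1 * X * (S'.1 * eps E i * (S'⁻¹).1)
      = S.1 * (eps E i * ((S⁻¹).1 * X * S'.1) * eps E i) * (S'⁻¹).1 := by
        simp only [Matrix.mul_assoc]
    _ = _ := by
        rw [eps, Matrix.single_mul_mul_single, one_mul, mul_one]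
        have : Matrix.single i i (((S⁻¹).1 * X * S'.1) i i) =
          (((S⁻¹).1 * X * S'.1) i i) • (Matrix.single i i (1 : E) : Matrix (Fin 2) (Fin 2) E) := by
          rw [Matrix.smul_single, smul_eq_mul, mul_one]
        rw [this, Matrix.mul_smul, Matrix.smul_mul]

/-- a nonabelian vertex: exchange of the two idempotents -/
theorem swap_na (S : SL2 E) (i : Fin 2) : ∃ a b : Matrix (Fin 2) (Fin 2) E,
    yy S S i = a * yy S S (1 - i) * b := by
  refine ⟨S.1 * (jm E).1 * (S⁻¹).1, S.1 * ((jm E)⁻¹).1 * (S⁻¹).1, ?_⟩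
  unfold yy
  calc S.1 * eps E i * (S⁻¹).1
      = S.1 * ((jm E).1 * eps E (1 - i) * ((jm E)⁻¹).1) * (S⁻¹).1 := by rw [jm_eps]
    _ = S.1 * (jm E).1 * ((S⁻¹).1 * S.1) * eps E (1 - i) * ((S⁻¹).1 * S.1) * ((jm E)⁻¹).1 *
        (S⁻¹).1 := by rw [inv_mul_val, Matrix.mul_one, Matrix.mul_one]; simp only [Matrix.mul_assoc]
    _ = _ := by simp only [Matrix.mul_assoc]

/-- an abelian vertex: exchange of the two idempotents -/
theorem swap_ab (S : SL2 E) (h01 : (yy S S 0) 0 1 = 0) (h10 : (yy S S 0) 1 0 = 0) :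
    ∀ i : Fin 2,
    ((jm E)⁻¹).1 * yy S S i = yy S S (1 - i) * ((jm E)⁻¹).1 ∧
    yy S S i * (jm E).1 = (jm E).1 * yy S S (1 - i) := by
  have ht : (yy S S 0).trace = 1 := by
    unfold yy
    rw [Matrix.trace_mul_comm, ← Matrix.mul_assoc, inv_mul_val, Matrix.one_mul, eps,
      Matrix.trace_fin_two]
    simp
  rw [Matrix.trace_fin_two] at ht
  have h1 : yy S S 1 = 1 - yy S S 0 := by rw [← yy_add S]; abel
  have a0 : ((jm E)⁻¹).1 0 0 = 0 := by rw [inv_00]; rfl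
  have a1 : ((jm E)⁻¹).1 0 1 = -1 := by rw [inv_01]; rfl
  have a2 : ((jm E)⁻¹).1 1 0 = 1 := by rw [inv_10]; exact neg_neg 1
  have a3 : ((jm E)⁻¹).1 1 1 = 0 := by rw [inv_11]; rfl
  have b0 : (jm E).1 0 0 = 0 := rfl
  have b1 : (jm E).1 0 1 = 1 := rfl
  have b2 : (jm E).1 1 0 = -1 := rfl
  have b3 : (jm E).1 1 1 = 0 := rfl
  obtain ⟨P, hPd⟩ : ∃ P, P = yy S S 0 := ⟨_, rfl⟩
  rw [← hPd] at h01 h10 ht h1
  have hP : P 1 1 = 1 - P 0 0 := by rw [← ht]; ring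
  have u0 : (1 : Matrix (Fin 2) (Fin 2) E) 0 0 = 1 := rfl
  have u1 : (1 : Matrix (Fin 2) (Fin 2) E) 0 1 = 0 := rfl
  have u2 : (1 : Matrix (Fin 2) (Fin 2) E) 1 0 = 0 := rfl
  have u3 : (1 : Matrix (Fin 2) (Fin 2) E) 1 1 = 1 := rfl
  have key : ∀ k l : Fin 2, (((jm E)⁻¹).1 * P) k l = ((1 - P) * ((jm E)⁻¹).1) k l ∧
      (((jm E)⁻¹).1 * (1 - P)) k l = (P * ((jm E)⁻¹).1) k l ∧
      (P * (jm E).1) k l = ((jm E).1 * (1 - P)) k l ∧
      ((1 - P) * (jm E).1) k l = ((jm E).1 * P) k l := by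
    refine Fin.forall_fin_two.2 ⟨Fin.forall_fin_two.2 ⟨?_, ?_⟩, Fin.forall_fin_two.2 ⟨?_, ?_⟩⟩ <;>
      simp only [Matrix.mul_apply, Fin.sum_univ_two, Matrix.sub_apply, a0, a1, a2, a3, b0, b1, b2,
        b3, h01, h10, hP, u0, u1, u2, u3] <;> refine ⟨?_, ?_, ?_, ?_⟩ <;> ring
  refine Fin.forall_fin_two.2 ⟨?_, ?_⟩
  · change ((jm E)⁻¹).1 * yy S S 0 = yy S S 1 * ((jm E)⁻¹).1 ∧
      yy S S 0 * (jm E).1 = (jm E).1 * yy S S 1
    rw [h1, ← hPd]
    refine ⟨?_, ?_⟩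
    · ext k l
      exact (key k l).1
    · ext k l
      exact (key k l).2.2.1
  · change ((jm E)⁻¹).1 * yy S S 1 = yy S S 0 * ((jm E)⁻¹).1 ∧
      yy S S 1 * (jm E).1 = (jm E).1 * yy S S 0
    rw [h1, ← hPd]
    refine ⟨?_, ?_⟩
    · ext k l
      exact (key k l).2.1
    · ext k l
      exact (key k l).2.2.2

/-- Data at a vertex `v` for the symmetry of the span. -/
structure VD (N : V → V → Γ → Matrix (Fin 2) (Fin 2) (LR E ι)) (v : V)
    (J J' : Matrix (Fin 2) (Fin 2) E) (T : SL2 E → Prop) : Prop where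
  inv : J * J' = 1
  left : ∀ S, T S → ∀ i, ∃ a b : Matrix (Fin 2) (Fin 2) E, mono 0 a ∈ Sp N v v ∧
    J' * yy S S i = a * yy S S (1 - i) * b
  right : ∀ S, T S → ∀ i, ∃ a b : Matrix (Fin 2) (Fin 2) E, mono 0 b ∈ Sp N v v ∧
    yy S S i * J = a * yy S S (1 - i) * b

/-- data at a nonabelian vertex -/
theorem VD.na {N : V → V → Γ → Matrix (Fin 2) (Fin 2) (LR E ι)} {v : V}
    (h : ∀ A, mono 0 A ∈ Sp N v v) : VD N v 1 1 (fun _ => True) where
  inv := Matrix.mul_one 1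
  left S _ i := by
    obtain ⟨a, b, hab⟩ := swap_na S i
    exact ⟨a, b, h a, by rw [Matrix.one_mul, hab]⟩
  right S _ i := by
    obtain ⟨a, b, hab⟩ := swap_na S i
    exact ⟨a, b, h b, by rw [Matrix.mul_one, hab]⟩

/-- data at an abelian vertex -/
theorem VD.ab {N : V → V → Γ → Matrix (Fin 2) (Fin 2) (LR E ι)} {v : V}
    (h1 : mono 0 1 ∈ Sp N v v) : VD N v (jm E).1 ((jm E)⁻¹).1
      (fun S => (yy S S 0) 0 1 = 0 ∧ (yy S S 0) 1 0 = 0) where
  inv := mul_inv_val _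
  left S hS i := ⟨1, ((jm E)⁻¹).1, h1, by
    rw [Matrix.one_mul]
    exact (swap_ab S hS.1 hS.2 i).1⟩
  right S hS i := ⟨(jm E).1, 1, h1, by
    rw [Matrix.mul_one]
    exact (swap_ab S hS.1 hS.2 i).2⟩

/-- the exchange of the two components of an edge matrix -/
theorem edge_swap {N : V → V → Γ → Matrix (Fin 2) (Fin 2) (LR E ι)} {v w : V}
    {J J' K K' : Matrix (Fin 2) (Fin 2) E} {T T' : SL2 E → Prop}
    (hv : VD N v J J' T) (hw : VD N w K K' T') {S S' : SL2 E} (hS : T S) (hS' : T' S')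
    (i : Fin 2) : ∃ a b : Matrix (Fin 2) (Fin 2) E, mono 0 a ∈ Sp N v v ∧ mono 0 b ∈ Sp N w w ∧
      J' * yy S S' i * K = a * yy S S' (1 - i) * b := by
  obtain ⟨a, X, ha, haX⟩ := hv.left S hS i
  obtain ⟨X', b, hb, hbX⟩ := hw.right S' hS' i
  refine ⟨(((S⁻¹).1 * (X * yy S S' i * X') * S'.1) (1 - i) (1 - i)) • a, b, ?_, hb, ?_⟩
  · rw [mono_smul]
    exact Submodule.smul_mem _ _ ha
  · have h1 : yy S S' i = yy S S i * yy S S' i * yy S' S' i := by rw [yy_mul, yy_mul]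
    have h2 := yy_scalar S S' (1 - i) (X * yy S S' i * X')
    calc J' * yy S S' i * K = J' * (yy S S i * yy S S' i * yy S' S' i) * K := by rw [← h1]
      _ = (J' * yy S S i) * yy S S' i * (yy S' S' i * K) := by simp only [Matrix.mul_assoc]
      _ = a * (yy S S (1 - i) * (X * yy S S' i * X') * yy S' S' (1 - i)) * b := by
        rw [haX, hbX]; simp only [Matrix.mul_assoc]
      _ = _ := by rw [h2]; simp only [Matrix.mul_smul, Matrix.smul_mul]

/-- one step along an edge -/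
theorem edge_step {N : V → V → Γ → Matrix (Fin 2) (Fin 2) (LR E ι)}
    (hN : ∀ u v w g h, N u v g * N v w h = N u w (g * h))
    {J J' : V → Matrix (Fin 2) (Fin 2) E} {T : V → SL2 E → Prop}
    (hV : ∀ v, VD N v (J v) (J' v) (T v)) {u v w : V} {δ : ι → ℤ} {S S' : SL2 E}
    (hS : T v S) (hS' : T w S') {h : Γ}
    (hNe : N v w h = mono δ (yy S S' 0) + mono (-δ) (yy S S' 1))
    (hP : ∀ i, mono 0 (yy S S i) ∈ Sp N v v) {M : Matrix (Fin 2) (Fin 2) (LR E ι)}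
    (hM : M ∈ Hs N J u v) : M * N v w h ∈ Hs N J u w := by
  have hJ : ∀ v, J v * J' v = 1 := fun v => (hV v).inv
  have hzero : ∀ i, yy S S i * yy S S' (1 - i) = 0 := by
    intro i
    unfold yy
    calc S.1 * eps E i * (S⁻¹).1 * (S.1 * eps E (1 - i) * (S'⁻¹).1)
        = S.1 * (eps E i * ((S⁻¹).1 * S.1) * eps E (1 - i)) * (S'⁻¹).1 := by
          simp only [Matrix.mul_assoc]
      _ = 0 := by
        rw [inv_mul_val, Matrix.mul_one, eps, eps, Matrix.single_mul_single_of_ne, Matrix.mul_zero,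
          Matrix.zero_mul]
        revert i
        decide
  have h0 : mono δ (yy S S' 0) ∈ Sp N v w := by
    have h1 := Sp_mul hN (hP 0) (Sp_mem N v w h)
    rw [hNe, Matrix.mul_add, mono_mul, mono_mul, zero_add, zero_add, yy_mul] at h1
    have h2 : yy S S 0 * yy S S' 1 = 0 := hzero 0
    rwa [h2, mono_zero, add_zero] at h1
  have h1 : mono (-δ) (yy S S' 1) ∈ Sp N v w := by
    have h1 := Sp_mul hN (hP 1) (Sp_mem N v w h)
    rw [hNe, Matrix.mul_add, mono_mul, mono_mul, zero_add, zero_add, yy_mul] at h1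
    have h2 : yy S S 1 * yy S S' 0 = 0 := hzero 1
    rwa [h2, mono_zero, zero_add] at h1
  obtain ⟨a, b, ha, hb, hab⟩ := edge_swap (hV v) (hV w) hS hS' 0
  obtain ⟨a', b', ha', hb', hab'⟩ := edge_swap (hV v) (hV w) hS hS' 1
  have e0 : (1 : Fin 2) - 0 = 1 := rfl
  have e1 : (1 : Fin 2) - 1 = 0 := rfl
  rw [e0] at hab
  rw [e1] at hab'
  rw [hNe, Matrix.mul_add]
  refine Submodule.add_mem _ (Hs_edge hN hJ h0 h1 ha hb hab hM) ?_
  refine Hs_edge hN hJ h1 ?_ ha' hb' hab' hM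
  rw [neg_neg]
  exact h0

/-- The span theorem for a splitting. -/
theorem span_GG (S : GG Γ) (N : S.V → S.V → Γ → Matrix (Fin 2) (Fin 2) (LR E S.E))
    (hN : ∀ u v w g h, N u v g * N v w h = N u w (g * h)) (hN1 : ∀ v, N v v 1 = 1)
    (r : S.V → Γ → Matrix (Fin 2) (Fin 2) E) (hr : ∀ v, ∀ x ∈ S.G v, N v v x = mono 0 (r v x))
    (J J' : S.V → Matrix (Fin 2) (Fin 2) E) (T : S.V → SL2 E → Prop)
    (hV : ∀ v, VD N v (J v) (J' v) (T v))
    (hconj : ∀ v, ∀ x ∈ S.G v, mono 0 (J' v * r v x * J v) ∈ Sp N v v)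
    (P Q : S.E → SL2 E) (hP : ∀ e, T (S.a e) (P e)) (hQ : ∀ e, T (S.b e) (Q e))
    (hPm : ∀ e i, mono 0 (yy (P e) (P e) i) ∈ Sp N (S.a e) (S.a e))
    (hQm : ∀ e i, mono 0 (yy (Q e) (Q e) i) ∈ Sp N (S.b e) (S.b e))
    (hfwd : ∀ e, N (S.a e) (S.b e) (S.s e) = mono (Pi.single e 1) (yy (P e) (Q e) 0) +
      mono (-Pi.single e 1) (yy (P e) (Q e) 1))
    (hbwd : ∀ e, N (S.b e) (S.a e) (S.s e)⁻¹ = mono (-Pi.single e 1) (yy (Q e) (P e) 0) +
      mono (Pi.single e 1) (yy (Q e) (P e) 1))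
    (v : S.V) (hv : J v = 1) (hall : ∀ A, mono 0 A ∈ Sp N v v)
    (hgen : ∀ g, S.Pth v v g) :
    ∃ L : AddSubgroup (S.E → ℤ), (∀ g, ∀ n, (N v v g).trace.coeff n ≠ 0 → n ∈ L) ∧
      ∀ n ∈ L, AddMonoidAlgebra.single n 1 ∈
        Submodule.span E (Set.range fun g => (N v v g).trace) := by
  refine Hs_final hN hN1 hv hall fun g => ?_
  have key : ∀ w g, S.Pth v w g → N v w g ∈ Hs N J v w := by
    intro w g hg
    induction hg with
    | one =>
      rw [hN1]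
      refine Submodule.subset_span ⟨0, 1, mono_one.symm, ?_, ?_⟩
      · rw [mono_one, ← hN1 v]
        exact Sp_mem N v v 1
      · rw [neg_zero, hv, Matrix.mul_one, mono_one, ← hN1 v]
        exact Sp_mem N v v 1
    | @grp w g x hg hx ih =>
      rw [← hN v w w, hr w x hx]
      refine Hs_grp hN (fun v => (hV v).inv) ?_ (hconj w x hx) ih
      rw [← hr w x hx]
      exact Sp_mem N w w x
    | @fwd g e hg ih =>
      rw [← hN v (S.a e) (S.b e)]
      exact edge_step hN hV (hP e) (hQ e) (hfwd e) (hPm e) ih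
    | @bwd g e hg ih =>
      rw [← hN v (S.b e) (S.a e)]
      refine edge_step hN hV (δ := -Pi.single e 1) (hQ e) (hP e) ?_ (hQm e) ih
      rw [neg_neg]
      exact hbwd e
  exact key v g (hgen g)

end

end Pool.Agent.FrL
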