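import Pool.Agent.Lib.MP_305fdd_al.Fr.L.Bend

/-!
# MP_305fdd_al, F_r, block LAURENT: evaluation and Galois action on the bent representation
-/

set_option autoImplicit false
set_option linter.unusedSectionVars false

namespace Pool.Agent.FrL

open Matrix Pool.Agent.FrS

section
variable {E Ω ι : Type} [Field E] [Field Ω] [Fintype ι]

/-- the monomial in the units `κ` -/
def pw (κ : ι → Ωˣ) (n : ι → ℤ) : Ωˣ := ∏ e, κ e ^ n e

theorem pw_zero (κ : ι → Ωˣ) : pw κ 0 = 1 := by simp [pw]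

theorem pw_add (κ : ι → Ωˣ) (n m : ι → ℤ) : pw κ (n + m) = pw κ n * pw κ m := by
  simp [pw, _root_.zpow_add, Finset.prod_mul_distrib]

theorem pw_single [DecidableEq ι] (κ : ι → Ωˣ) (e : ι) (k : ℤ) :
    pw κ (Pi.single e k) = κ e ^ k := by
  unfold pw
  rw [Finset.prod_eq_single e]
  · rw [Pi.single_eq_same]
  · intro b _ hb
    rw [Pi.single_eq_of_ne hb, zpow_zero]
  · intro h
    exact absurd (Finset.mem_univ e) h

theorem pw_one (n : ι → ℤ) : pw (1 : ι → Ωˣ) n = 1 := by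
  simp [pw]

/-- change of the signs of the exponents -/
def sg (ε : ι → ℤˣ) : (ι → ℤ) →+ (ι → ℤ) where
  toFun n := fun e => (ε e : ℤ) * n e
  map_zero' := by ext e; simp
  map_add' n m := by ext e; simp [mul_add]

theorem sg_apply (ε : ι → ℤˣ) (n : ι → ℤ) (e : ι) : sg ε n e = (ε e : ℤ) * n e := rfl

theorem sg_sg (ε : ι → ℤˣ) (n : ι → ℤ) : sg ε (sg ε n) = n := by
  ext e
  rw [sg_apply, sg_apply, ← mul_assoc, ← Units.val_mul, Int.units_mul_self]
  simp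

theorem sg_one (n : ι → ℤ) : sg (1 : ι → ℤˣ) n = n := by
  ext e
  simp [sg_apply]

theorem sg_single [DecidableEq ι] (ε : ι → ℤˣ) (e : ι) (k : ℤ) :
    sg ε (Pi.single e k) = Pi.single e ((ε e : ℤ) * k) := by
  ext x
  rw [sg_apply]
  by_cases h : x = e
  · subst h
    rw [Pi.single_eq_same, Pi.single_eq_same]
  · rw [Pi.single_eq_of_ne h, Pi.single_eq_of_ne h, mul_zero]

/-- evaluation of the Laurent polynomials at `κ` -/
noncomputable def evR (i : E →+* Ω) (κ : ι → Ωˣ) : LR E ι →+* Ω :=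
  AddMonoidAlgebra.liftNCRingHom i
    { toFun := fun n => ((pw κ n.toAdd : Ωˣ) : Ω)
      map_one' := by rw [toAdd_one, pw_zero, Units.val_one]
      map_mul' := fun n m => by rw [toAdd_mul, pw_add, Units.val_mul] }
    (fun x y => Commute.all _ _)

theorem evR_single (i : E →+* Ω) (κ : ι → Ωˣ) (n : ι → ℤ) (a : E) :
    evR i κ (AddMonoidAlgebra.single n a) = i a * pw κ n := by
  rw [evR, AddMonoidAlgebra.liftNCRingHom_single]
  rfl

/-- the substitution `t_e ↦ κ_e t_e ^ ε_e` with change of the coefficients -/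
noncomputable def th (i : E →+* Ω) (κ : ι → Ωˣ) (ε : ι → ℤˣ) : LR E ι →+* LR Ω ι :=
  AddMonoidAlgebra.liftNCRingHom ((cE Ω ι).comp i)
    { toFun := fun n => AddMonoidAlgebra.single (sg ε n.toAdd) ((pw κ n.toAdd : Ωˣ) : Ω)
      map_one' := by
        rw [toAdd_one, pw_zero, Units.val_one, map_zero]
        rfl
      map_mul' := fun n m => by
        rw [toAdd_mul, pw_add, Units.val_mul, map_add, AddMonoidAlgebra.single_mul_single] }
    (fun x y => Commute.all _ _)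

theorem th_single (i : E →+* Ω) (κ : ι → Ωˣ) (ε : ι → ℤˣ) (n : ι → ℤ) (a : E) :
    th i κ ε (AddMonoidAlgebra.single n a) =
      AddMonoidAlgebra.single (sg ε n) (i a * pw κ n) := by
  rw [th, AddMonoidAlgebra.liftNCRingHom_single]
  change AddMonoidAlgebra.single 0 (i a) * AddMonoidAlgebra.single (sg ε n) ((pw κ n : Ωˣ) : Ω) = _
  rw [AddMonoidAlgebra.single_mul_single, zero_add]

theorem th_coeff (i : E →+* Ω) (κ : ι → Ωˣ) (ε : ι → ℤˣ) (f : LR E ι) (m : ι → ℤ) :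
    (th i κ ε f).coeff m = i (f.coeff (sg ε m)) * pw κ (sg ε m) := by
  classical
  induction f using AddMonoidAlgebra.induction_linear with
  | zero => simp
  | add f g hf hg =>
    rw [map_add, AddMonoidAlgebra.coeff_add, Finsupp.add_apply, hf, hg, AddMonoidAlgebra.coeff_add,
      Finsupp.add_apply, map_add, add_mul]
  | single n a =>
    rw [th_single, AddMonoidAlgebra.coeff_single, AddMonoidAlgebra.coeff_single,
      Finsupp.single_apply, Finsupp.single_apply]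
    by_cases h : n = sg ε m
    · subst h
      rw [if_pos rfl, sg_sg, if_pos rfl]
    · rw [if_neg h, map_zero, zero_mul, if_neg]
      rintro rfl
      rw [sg_sg] at h
      exact h rfl

theorem th_inj (i : E →+* Ω) (κ : ι → Ωˣ) (ε : ι → ℤˣ) : Function.Injective (th (ι := ι) i κ ε) := by
  rw [injective_iff_map_eq_zero]
  intro f hf
  apply AddMonoidAlgebra.ext
  apply Finsupp.ext
  intro n
  have h1 := th_coeff i κ ε f (sg ε n)
  rw [hf, sg_sg] at h1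
  have h2 : i (f.coeff n) = 0 := by
    have h3 : (0 : LR Ω ι).coeff (sg ε n) = 0 := rfl
    rw [h3] at h1
    exact (mul_eq_zero.1 h1.symm).resolve_right (Units.ne_zero _)
  rw [map_eq_zero] at h2
  rw [h2]
  rfl

theorem mp_evR_cE (i : E →+* Ω) (κ : ι → Ωˣ) (A : SL2 E) :
    mp (evR i κ) (mp (cE E ι) A) = mp i A := by
  apply Subtype.ext
  ext k l
  rw [mp_apply, mp_apply, mp_apply, cE_apply, evR_single, pw_zero, Units.val_one, mul_one]

theorem mp_evR_dg [DecidableEq ι] (i : E →+* Ω) (κ : ι → Ωˣ) (e : ι) :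
    mp (evR i κ) (dg (tm E (Pi.single e 1))) = dg (κ e) := by
  rw [mp_dg]
  congr 1
  apply Units.ext
  change evR i κ (AddMonoidAlgebra.single _ 1) = _
  rw [evR_single, map_one, one_mul, pw_single, zpow_one]

theorem mp_th_cE (i : E →+* Ω) (κ : ι → Ωˣ) (ε : ι → ℤˣ) (A : SL2 E) :
    mp (th i κ ε) (mp (cE E ι) A) = mp (cE Ω ι) (mp i A) := by
  apply Subtype.ext
  ext k l
  rw [mp_apply, mp_apply, mp_apply, mp_apply, cE_apply, th_single, pw_zero, Units.val_one, mul_one,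
    map_zero, cE_apply]

end

section
variable {E Ω Γ : Type} [Field E] [Field Ω] [Group Γ]

theorem jm_dg {A : Type} [CommRing A] (u : Aˣ) : jm A * dg u * (jm A)⁻¹ = dg u⁻¹ := by
  have a0 : ((jm A)⁻¹).1 0 0 = 0 := by rw [inv_00]; rfl
  have a1 : ((jm A)⁻¹).1 0 1 = -1 := by rw [inv_01]; rfl
  have a2 : ((jm A)⁻¹).1 1 0 = 1 := by rw [inv_10]; exact neg_neg 1
  have a3 : ((jm A)⁻¹).1 1 1 = 0 := by rw [inv_11]; rfl
  have b0 : (jm A).1 0 0 = 0 := rfl
  have b1 : (jm A).1 0 1 = 1 := rfl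
  have b2 : (jm A).1 1 0 = -1 := rfl
  have b3 : (jm A).1 1 1 = 0 := rfl
  apply sl2_ext <;>
    simp only [mul_00, mul_01, mul_10, mul_11, a0, a1, a2, a3, b0, b1, b2, b3, dg_00, dg_01, dg_10,
      dg_11, inv_inv] <;> ring

theorem mp_jm {A B : Type} [CommRing A] [CommRing B] (f : A →+* B) : mp f (jm A) = jm B := by
  apply sl2_ext
  · exact map_zero f
  · exact map_one f
  · exact (map_neg f 1).trans (by rw [map_one]; rfl)
  · exact map_zero f

theorem dg_mul {A : Type} [CommRing A] (s t : Aˣ) : dg (s * t) = dg s * dg t := by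
  apply sl2_ext
  · rw [mul_00, dg_00, dg_00, dg_00, dg_01, Units.val_mul]
    ring
  · rw [mul_01, dg_01, dg_01, dg_01]
    ring
  · rw [mul_10, dg_10, dg_10, dg_10]
    ring
  · rw [mul_11, dg_11, dg_11, dg_11, dg_01, mul_inv, Units.val_mul]
    ring

theorem dg_inv {A : Type} [CommRing A] (s : Aˣ) : dg s⁻¹ = (dg s)⁻¹ := by
  apply sl2_ext
  · rw [inv_00, dg_11, dg_00]
  · rw [inv_01, dg_01, dg_01, neg_zero]
  · rw [inv_10, dg_10, dg_10, neg_zero]
  · rw [inv_11, dg_11, dg_00, inv_inv]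

/-- the sum determines a unit up to inversion -/
theorem unit_of_sum {u v : Ωˣ} (h : (u : Ω) + ((u⁻¹ : Ωˣ) : Ω) = v + ((v⁻¹ : Ωˣ) : Ω)) :
    v = u ∨ v = u⁻¹ := by
  have hu : (u : Ω) * ((u⁻¹ : Ωˣ) : Ω) = 1 := u.mul_inv
  have hv : (v : Ω) * ((v⁻¹ : Ωˣ) : Ω) = 1 := v.mul_inv
  have h1 : ((v : Ω) - u) * ((v : Ω) - ((u⁻¹ : Ωˣ) : Ω)) = 0 := by
    linear_combination (-(v : Ω)) * h + hu - hv
  rcases mul_eq_zero.1 h1 with h2 | h2
  · left
    exact Units.ext (sub_eq_zero.1 h2)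
  · right
    exact Units.ext (sub_eq_zero.1 h2)

/-- diagonal representations with the same traces -/
theorem ab_conj {G : Type} [Group G] (r1 r2 : G →* SL2 Ω) (hT : ∀ g, (r1 g).1.trace = (r2 g).1.trace)
    (h1 : ∀ g, ∃ u, r1 g = dg u) (h2 : ∀ g, ∃ u, r2 g = dg u) (z : G) (u : Ωˣ)
    (hu : (u : Ω) ≠ ((u⁻¹ : Ωˣ) : Ω)) (hz : r1 z = dg u) :
    ∃ h : SL2 Ω, ∀ g, r2 g = h * r1 g * h⁻¹ := by
  obtain ⟨v, hv⟩ := h2 z
  have key : ∀ (s1 s2 : G →* SL2 Ω), (∀ g, (s1 g).1.trace = (s2 g).1.trace) →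
      (∀ g, ∃ u, s1 g = dg u) → (∀ g, ∃ u, s2 g = dg u) → s1 z = dg v → s2 z = dg v →
      (v : Ω) ≠ ((v⁻¹ : Ωˣ) : Ω) → ∀ g, s2 g = s1 g := by
    intro s1 s2 hs k1 k2 z1 z2 hv g
    have hne := sub_ne_zero.2 hv
    have e1 := diag_entry v (s1 g)
    have e2 := diag_entry v (s2 g)
    rw [← z1, ← map_mul] at e1
    rw [← z2, ← map_mul, ← hs, ← hs, ← e1] at e2
    have e3 := mul_left_cancel₀ hne e2
    obtain ⟨a, ha⟩ := k1 g
    obtain ⟨b, hb⟩ := k2 g
    rw [ha, hb, dg_00, dg_00] at e3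
    rw [ha, hb, Units.ext e3]
  have ht := hT z
  rw [hz, hv, Matrix.trace_fin_two, Matrix.trace_fin_two, dg_00, dg_11, dg_00, dg_11] at ht
  rcases unit_of_sum ht with h | h
  · refine ⟨1, fun g => ?_⟩
    rw [one_mul, inv_one, mul_one]
    exact key r1 r2 hT h1 h2 (by rw [hz, h]) hv (by rw [h]; exact hu) g
  · refine ⟨jm Ω, fun g => ?_⟩
    have e1 := key (cj (jm Ω)⁻¹ r1) r2 (fun g => by rw [cj_trace, hT]) (fun g => by
        obtain ⟨a, ha⟩ := h1 g
        exact ⟨a⁻¹, by rw [cj_apply, inv_inv, ha, jm_dg]⟩) h2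
      (by rw [cj_apply, inv_inv, hz, jm_dg, h]) hv (by rw [h, inv_inv]; exact hu.symm) g
    rw [e1, cj_apply, inv_inv]

/-- an eigenbasis is unique up to the torus and the exchange of the axes -/
theorem basis_uniq (i j : E →+* Ω) (P X : SL2 E) (ψ : Eˣ) (hψ : (ψ : E) ≠ ((ψ⁻¹ : Eˣ) : E))
    (hX : X = P * dg ψ * P⁻¹) (h : SL2 Ω) (hij : mp j X = h * mp i X * h⁻¹) :
    ((Units.map (j : E →* Ω) ψ = Units.map (i : E →* Ω) ψ) →
      ∃ b : Ωˣ, mp j P = h * mp i P * dg b) ∧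
    ((Units.map (j : E →* Ω) ψ = (Units.map (i : E →* Ω) ψ)⁻¹) →
      ∃ b : Ωˣ, mp j P = h * mp i P * dg b * (jm Ω)⁻¹) := by
  have hne : ((Units.map (i : E →* Ω) ψ : Ωˣ) : Ω) ≠
      (((Units.map (i : E →* Ω) ψ)⁻¹ : Ωˣ) : Ω) := by
    intro h
    apply hψ
    apply i.injective
    exact h
  have e1 : mp j X = mp j P * dg (Units.map (j : E →* Ω) ψ) * (mp j P)⁻¹ := by
    rw [hX, map_mul, map_mul, map_inv, mp_dg]
  have e2 : mp i X = mp i P * dg (Units.map (i : E →* Ω) ψ) * (mp i P)⁻¹ := by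
    rw [hX, map_mul, map_mul, map_inv, mp_dg]
  have e3 : ((mp i P)⁻¹ * h⁻¹ * mp j P) * dg (Units.map (j : E →* Ω) ψ) =
      dg (Units.map (i : E →* Ω) ψ) * ((mp i P)⁻¹ * h⁻¹ * mp j P) := by
    have e4 : mp j P * dg (Units.map (j : E →* Ω) ψ) = mp j X * mp j P := by
      rw [e1]
      group
    have e5 : dg (Units.map (i : E →* Ω) ψ) * (mp i P)⁻¹ = (mp i P)⁻¹ * mp i X := by
      rw [e2]
      group
    calc ((mp i P)⁻¹ * h⁻¹ * mp j P) * dg (Units.map (j : E →* Ω) ψ)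
        = (mp i P)⁻¹ * h⁻¹ * (mp j P * dg (Units.map (j : E →* Ω) ψ)) := by group
      _ = ((mp i P)⁻¹ * mp i X) * h⁻¹ * mp j P := by
        rw [e4, hij]
        group
      _ = _ := by
        rw [← e5]
        group
  constructor
  · intro hj
    rw [hj] at e3
    obtain ⟨b, hb⟩ := diag_of_comm _ hne _ e3
    refine ⟨b, ?_⟩
    rw [← hb]
    group
  · intro hj
    rw [hj] at e3
    have e6 : ((mp i P)⁻¹ * h⁻¹ * mp j P * jm Ω) * dg (Units.map (i : E →* Ω) ψ) =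
        dg (Units.map (i : E →* Ω) ψ) * ((mp i P)⁻¹ * h⁻¹ * mp j P * jm Ω) := by
      have e7 : jm Ω * dg (Units.map (i : E →* Ω) ψ) =
          dg (Units.map (i : E →* Ω) ψ)⁻¹ * jm Ω := by
        rw [← jm_dg]
        group
      calc ((mp i P)⁻¹ * h⁻¹ * mp j P * jm Ω) * dg (Units.map (i : E →* Ω) ψ)
          = (mp i P)⁻¹ * h⁻¹ * mp j P * (jm Ω * dg (Units.map (i : E →* Ω) ψ)) := by group
        _ = ((mp i P)⁻¹ * h⁻¹ * mp j P * dg (Units.map (i : E →* Ω) ψ)⁻¹) * jm Ω := by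
          rw [e7]
          group
        _ = _ := by
          rw [e3]
          group
    obtain ⟨b, hb⟩ := diag_of_comm _ hne _ e6
    refine ⟨b, ?_⟩
    rw [← hb]
    group

/-- the two embeddings are conjugate on every vertex group -/
theorem LD.conj {S : GG Γ} {ι : E →+* Ω} {R : Γ →* SL2 Ω} (d : LD S ι R)
    (hsq : ∀ x : Ω, ∃ y, y * y = x) (i j : E →+* Ω) (v : S.V)
    (hT : ∀ x : S.G v, i (d.r v x).1.trace = j (d.r v x).1.trace) :
    ∃ h : SL2 Ω, ∀ x : S.G v, mp j (d.r v x) = h * mp i (d.r v x) * h⁻¹ := by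
  by_cases hn : S.NA v
  · obtain ⟨z, u, hu, hz⟩ := d.z v
    refine conj_of_trace hsq ((mp i).comp (d.r v)) ((mp j).comp (d.r v)) ?_ z
      (Units.map (i : E →* Ω) u) ?_ ?_ ?_
    · intro g
      change (mp i (d.r v g)).1.trace = (mp j (d.r v g)).1.trace
      rw [mp_trace, mp_trace, hT]
    · intro h
      apply hu
      apply i.injective
      exact h
    · change (mp i (d.r v z)).1.trace = _
      rw [mp_trace, hz, map_add]
      rfl
    · obtain ⟨a, b, hab⟩ := d.irr v hn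
      refine ⟨a, b, ?_⟩
      change (mp i (d.r v _)).1.trace ≠ 2
      rw [mp_trace]
      intro h
      apply hab
      apply i.injective
      rw [h, map_ofNat]
  · obtain ⟨z, u, hz, hu⟩ := d.ab' v hn
    refine ab_conj ((mp i).comp (d.r v)) ((mp j).comp (d.r v)) ?_ ?_ ?_ z
      (Units.map (i : E →* Ω) u) ?_ ?_
    · intro g
      change (mp i (d.r v g)).1.trace = (mp j (d.r v g)).1.trace
      rw [mp_trace, mp_trace, hT]
    · intro g
      obtain ⟨a, ha⟩ := d.ab v hn g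
      exact ⟨Units.map (i : E →* Ω) a, by
        change mp i (d.r v g) = _
        rw [ha, mp_dg]⟩
    · intro g
      obtain ⟨a, ha⟩ := d.ab v hn g
      exact ⟨Units.map (j : E →* Ω) a, by
        change mp j (d.r v g) = _
        rw [ha, mp_dg]⟩
    · intro h
      apply hu
      apply i.injective
      exact h
    · change mp i (d.r v z) = _
      rw [hz, mp_dg]

/-- the evaluation of the bent representation -/
theorem BR.eval {S : GG Γ} {ι : E →+* Ω} {R : Γ →* SL2 Ω} {d : LD S ι R} (b : BR S d)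
    (hgen : ∀ (u v : S.V) (g : Γ), S.Pth u v g) (g : Γ) :
    evR ι d.lam (b.rt g).1.trace = (R g).1.trace := by
  obtain ⟨v⟩ := S.nV
  have h1 := path_eq S ((mp (evR ι d.lam)).comp b.rt) R (fun v => mp (evR ι d.lam) (b.g v)) d.q
    (by
      intro v x hx
      change (mp (evR ι d.lam) (b.g v))⁻¹ * mp (evR ι d.lam) (b.rt x) *
        mp (evR ι d.lam) (b.g v) = _
      rw [← map_inv, ← map_mul, ← map_mul, b.vtx v ⟨x, hx⟩, mp_evR_cE, d.hr])
    (by
      intro e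
      change (mp (evR ι d.lam) (b.g _))⁻¹ * mp (evR ι d.lam) (b.rt _) *
        mp (evR ι d.lam) (b.g _) = _
      rw [← map_inv, ← map_mul, ← map_mul, b.edg, d.hW, map_mul, map_mul, map_inv, mp_evR_cE,
        mp_evR_cE, mp_evR_dg]) (hgen v v g)
  rw [← mp_trace]
  exact trace_of_path_eq h1

end

section
variable {E Ω ι : Type} [Field E] [Field Ω] [Fintype ι] [DecidableEq ι]

theorem mp_th_tm (i : E →+* Ω) (κ : ι → Ωˣ) (ε : ι → ℤˣ) (e : ι) :
    mp (th i κ ε) (dg (tm E (Pi.single e 1))) =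
      mp (cE Ω ι) (dg (κ e)) * dg (tm Ω (Pi.single e (ε e : ℤ))) := by
  rw [mp_dg, mp_dg]
  apply sl2_ext
  · rw [mul_00, dg_00, dg_00, dg_00, dg_01, zero_mul, add_zero]
    change th i κ ε (AddMonoidAlgebra.single _ 1) = AddMonoidAlgebra.single 0 ((κ e : Ωˣ) : Ω) *
      AddMonoidAlgebra.single _ 1
    rw [th_single, AddMonoidAlgebra.single_mul_single, sg_single, pw_single, map_one, zero_add,
      one_mul, mul_one, mul_one, zpow_one]
  · rw [mul_01, dg_01, dg_01, dg_01]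
    ring
  · rw [mul_10, dg_10, dg_10, dg_10]
    ring
  · rw [mul_11, dg_11, dg_11, dg_11, dg_01, mul_zero, zero_add]
    change th i κ ε (AddMonoidAlgebra.single _ 1) =
      AddMonoidAlgebra.single 0 (((κ e)⁻¹ : Ωˣ) : Ω) * AddMonoidAlgebra.single _ 1
    rw [th_single, AddMonoidAlgebra.single_mul_single, map_neg, sg_single, map_one, zero_add,
      one_mul, mul_one, mul_one]
    congr 1
    have h1 : -Pi.single e (1 : ℤ) = (Pi.single e (-1) : ι → ℤ) := by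
      ext x
      by_cases h : x = e
      · subst h
        simp
      · simp [h]
    rw [h1, pw_single, _root_.zpow_neg_one]

end

section
variable {E Ω Γ : Type} [Field E] [Field Ω] [Group Γ]

theorem tm_neg {ι : Type} (n : ι → ℤ) : tm Ω (-n) = (tm Ω n)⁻¹ := by
  apply Units.ext
  rfl

/-- the gluing matrix of an edge under the second embedding -/
theorem LD.glue {S : GG Γ} {ι : E →+* Ω} {R : Γ →* SL2 Ω} (d : LD S ι R) (i j : E →+* Ω)
    (hT : ∀ v (x : S.G v), i (d.r v x).1.trace = j (d.r v x).1.trace) (h : S.V → SL2 Ω)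
    (hh : ∀ v (x : S.G v), mp j (d.r v x) = h v * mp i (d.r v x) * (h v)⁻¹) (e : S.E) :
    ∃ (κ : Ωˣ) (ε : ℤˣ), mp (cE Ω S.E) (mp j (d.P e)) * dg (tm Ω (Pi.single e 1)) *
        (mp (cE Ω S.E) (mp j (d.Q e)))⁻¹ =
      mp (cE Ω S.E) (h (S.a e)) * (mp (cE Ω S.E) (mp i (d.P e)) *
        (mp (cE Ω S.E) (dg κ) * dg (tm Ω (Pi.single e (ε : ℤ)))) *
        (mp (cE Ω S.E) (mp i (d.Q e)))⁻¹) * (mp (cE Ω S.E) (h (S.b e)))⁻¹ := by
  have ht := hT (S.a e) ⟨d.y e, S.Ca e (d.y e).2⟩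
  rw [d.hP, trace_conj', Matrix.trace_fin_two, dg_00, dg_11, map_add, map_add] at ht
  obtain ⟨hP1, hP2⟩ := basis_uniq i j (d.P e) _ (d.ψ e) (d.hψ e) (d.hP e) (h (S.a e)) (hh _ _)
  obtain ⟨hQ1, hQ2⟩ := basis_uniq i j (d.Q e) _ (d.ψ e) (d.hψ e) (d.hQ e) (h (S.b e)) (hh _ _)
  rcases unit_of_sum (u := Units.map (i : E →* Ω) (d.ψ e)) (v := Units.map (j : E →* Ω) (d.ψ e)) ht
    with hs | hs
  · obtain ⟨b, hb⟩ := hP1 hs
    obtain ⟨b', hb'⟩ := hQ1 hs
    refine ⟨b * b'⁻¹, 1, ?_⟩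
    rw [hb, hb', dg_mul, dg_inv, Units.val_one]
    simp only [map_mul, map_inv]
    have hc : mp (cE Ω S.E) (dg b') * dg (tm Ω (Pi.single e (1 : ℤ))) =
        dg (tm Ω (Pi.single e (1 : ℤ))) * mp (cE Ω S.E) (dg b') := by
      rw [mp_dg, dg_comm]
    generalize mp (cE Ω S.E) (dg b') = B' at hc ⊢
    generalize mp (cE Ω S.E) (dg b) = B at hc ⊢
    generalize dg (tm Ω (Pi.single e (1 : ℤ))) = t at hc ⊢
    have hc' : t * B'⁻¹ = B'⁻¹ * t := by
      rw [mul_inv_eq_iff_eq_mul, mul_assoc, ← hc, inv_mul_cancel_left]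
    calc mp (cE Ω S.E) (h (S.a e)) * mp (cE Ω S.E) (mp i (d.P e)) * B * t *
          (mp (cE Ω S.E) (h (S.b e)) * mp (cE Ω S.E) (mp i (d.Q e)) * B')⁻¹
        = mp (cE Ω S.E) (h (S.a e)) * (mp (cE Ω S.E) (mp i (d.P e)) * (B * (t * B'⁻¹)) *
          (mp (cE Ω S.E) (mp i (d.Q e)))⁻¹) * (mp (cE Ω S.E) (h (S.b e)))⁻¹ := by group
      _ = _ := by rw [hc', mul_assoc B B'⁻¹ t]
  · obtain ⟨b, hb⟩ := hP2 hs
    obtain ⟨b', hb'⟩ := hQ2 hs
    refine ⟨b * b'⁻¹, -1, ?_⟩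
    rw [hb, hb', dg_mul, dg_inv]
    simp only [map_mul, map_inv, mp_jm]
    have hsn : (Pi.single e ((-1 : ℤˣ) : ℤ) : S.E → ℤ) = -Pi.single e 1 := by
      ext x
      by_cases h : x = e
      · subst h
        simp
      · simp [h]
    have hj : (jm (LR Ω S.E))⁻¹ * dg (tm Ω (Pi.single e (1 : ℤ))) * jm (LR Ω S.E) =
        dg (tm Ω (Pi.single e ((-1 : ℤˣ) : ℤ))) := by
      rw [hsn, tm_neg, ← inv_inv (tm Ω (Pi.single e (1 : ℤ))), ← jm_dg, inv_inv]
      group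
    have hc : mp (cE Ω S.E) (dg b') * dg (tm Ω (Pi.single e ((-1 : ℤˣ) : ℤ))) =
        dg (tm Ω (Pi.single e ((-1 : ℤˣ) : ℤ))) * mp (cE Ω S.E) (dg b') := by
      rw [mp_dg, dg_comm]
    generalize mp (cE Ω S.E) (dg b') = B' at hc ⊢
    generalize mp (cE Ω S.E) (dg b) = B at hc ⊢
    generalize dg (tm Ω (Pi.single e ((-1 : ℤˣ) : ℤ))) = t' at hc hj ⊢
    generalize dg (tm Ω (Pi.single e (1 : ℤ))) = t at hj ⊢
    generalize jm (LR Ω S.E) = j0 at hj ⊢
    have hc' : t' * B'⁻¹ = B'⁻¹ * t' := by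
      rw [mul_inv_eq_iff_eq_mul, mul_assoc, ← hc, inv_mul_cancel_left]
    calc mp (cE Ω S.E) (h (S.a e)) * mp (cE Ω S.E) (mp i (d.P e)) * B * j0⁻¹ * t *
          (mp (cE Ω S.E) (h (S.b e)) * mp (cE Ω S.E) (mp i (d.Q e)) * B' * j0⁻¹)⁻¹
        = mp (cE Ω S.E) (h (S.a e)) * (mp (cE Ω S.E) (mp i (d.P e)) * (B * ((j0⁻¹ * t * j0) * B'⁻¹)) *
          (mp (cE Ω S.E) (mp i (d.Q e)))⁻¹) * (mp (cE Ω S.E) (h (S.b e)))⁻¹ := by group
      _ = _ := by rw [hj, hc', mul_assoc B B'⁻¹ t']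

/-- The Galois action on the traces of the bent representation. -/
theorem BR.gal {S : GG Γ} {ι : E →+* Ω} {R : Γ →* SL2 Ω} {d : LD S ι R} (b : BR S d)
    (hsq : ∀ x : Ω, ∃ y, y * y = x) (hgen : ∀ (u v : S.V) (g : Γ), S.Pth u v g) (j : E →+* Ω)
    (hT : ∀ v (x : S.G v), ι (d.r v x).1.trace = j (d.r v x).1.trace) :
    ∃ (κ : S.E → Ωˣ) (ε : S.E → ℤˣ), ∀ g,
      th j 1 1 (b.rt g).1.trace = th ι κ ε (b.rt g).1.trace := by
  choose h hh using fun v => d.conj hsq ι j v (hT v)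
  choose κ ε hκ using fun e => d.glue ι j hT h hh e
  refine ⟨κ, ε, fun g => ?_⟩
  obtain ⟨v⟩ := S.nV
  have h1 := path_eq S ((mp (th j 1 1)).comp b.rt) ((mp (th ι κ ε)).comp b.rt)
    (fun v => mp (th j 1 1) (b.g v)) (fun v => mp (th ι κ ε) (b.g v) * (mp (cE Ω S.E) (h v))⁻¹)
    (by
      intro v x hx
      change (mp (th j 1 1) (b.g v))⁻¹ * mp (th j 1 1) (b.rt x) * mp (th j 1 1) (b.g v) =
        (mp (th ι κ ε) (b.g v) * (mp (cE Ω S.E) (h v))⁻¹)⁻¹ * mp (th ι κ ε) (b.rt x) *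
          (mp (th ι κ ε) (b.g v) * (mp (cE Ω S.E) (h v))⁻¹)
      rw [← map_inv (mp (th j 1 1)), ← map_mul (mp (th j 1 1)), ← map_mul (mp (th j 1 1)),
        b.vtx v ⟨x, hx⟩, mp_th_cE, hh, map_mul, map_mul, map_inv, ← mp_th_cE ι κ ε,
        ← b.vtx v ⟨x, hx⟩, map_mul, map_mul, map_inv]
      group)
    (by
      intro e
      change (mp (th j 1 1) (b.g _))⁻¹ * mp (th j 1 1) (b.rt _) * mp (th j 1 1) (b.g _) =
        (mp (th ι κ ε) (b.g _) * (mp (cE Ω S.E) (h _))⁻¹)⁻¹ * mp (th ι κ ε) (b.rt _) *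
          (mp (th ι κ ε) (b.g _) * (mp (cE Ω S.E) (h _))⁻¹)
      have e1 : (mp (th j 1 1) (b.g (S.a e)))⁻¹ * mp (th j 1 1) (b.rt (S.s e)) *
          mp (th j 1 1) (b.g (S.b e)) = mp (cE Ω S.E) (mp j (d.P e)) *
          dg (tm Ω (Pi.single e 1)) * (mp (cE Ω S.E) (mp j (d.Q e)))⁻¹ := by
        rw [← map_inv (mp (th j 1 1)), ← map_mul (mp (th j 1 1)), ← map_mul (mp (th j 1 1)), b.edg,
          map_mul, map_mul, map_inv, mp_th_cE, mp_th_cE, mp_th_tm]
        simp only [Pi.one_apply, Units.val_one]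
        have : mp (cE Ω S.E) (dg (1 : Ωˣ)) = 1 := by
          rw [mp_dg, map_one]
          apply sl2_ext <;> simp [dg_00, dg_01, dg_10, dg_11]
        rw [this, one_mul]
      have e2 : (mp (th ι κ ε) (b.g (S.a e)))⁻¹ * mp (th ι κ ε) (b.rt (S.s e)) *
          mp (th ι κ ε) (b.g (S.b e)) = mp (cE Ω S.E) (mp ι (d.P e)) *
          (mp (cE Ω S.E) (dg (κ e)) * dg (tm Ω (Pi.single e (ε e : ℤ)))) *
          (mp (cE Ω S.E) (mp ι (d.Q e)))⁻¹ := by
        rw [← map_inv (mp (th ι κ ε)), ← map_mul (mp (th ι κ ε)), ← map_mul (mp (th ι κ ε)), b.edg,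
          map_mul, map_mul, map_inv, mp_th_cE, mp_th_cE, mp_th_tm]
      rw [e1, hκ, ← e2]
      group) (hgen v v g)
  rw [← mp_trace, ← mp_trace]
  exact trace_of_path_eq h1

end

end Pool.Agent.FrL
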