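import Pool.Agent.Lib.MP_305fdd_al.Fr.L.Prep

/-!
# MP_305fdd_al, F_r, block LAURENT: the lattice of the exponents of the bent representation
-/

set_option autoImplicit false
set_option linter.unusedSectionVars false

namespace Pool.Agent.FrL

open Matrix Pool.Agent.FrS

section
variable {E : Type} [Field E]

theorem dg_val (u : Eˣ) : (dg u).1 = (u : E) • eps E 0 + ((u⁻¹ : Eˣ) : E) • eps E 1 := by
  have d0 := dg_00 u
  have d1 := dg_01 u
  have d2 := dg_10 u
  have d3 := dg_11 u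
  ext i j
  rw [Matrix.add_apply, Matrix.smul_apply, Matrix.smul_apply]
  fin_cases i <;> fin_cases j <;> simp only [Fin.zero_eta, Fin.mk_one, d0, d1, d2, d3, eps,
    Matrix.single_apply, smul_eq_mul] <;> simp

/-- the idempotents of an element with different eigenvalues -/
theorem yy_of_diag {P X : SL2 E} {ψ : Eˣ} (hψ : (ψ : E) ≠ ((ψ⁻¹ : Eˣ) : E))
    (hX : X = P * dg ψ * P⁻¹) :
    yy P P 0 = ((ψ : E) - ((ψ⁻¹ : Eˣ) : E))⁻¹ • (X.1 - ((ψ⁻¹ : Eˣ) : E) • 1) := by
  have h1 : X.1 = (ψ : E) • yy P P 0 + ((ψ⁻¹ : Eˣ) : E) • yy P P 1 := by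
    rw [hX, Matrix.SpecialLinearGroup.coe_mul, Matrix.SpecialLinearGroup.coe_mul, dg_val]
    unfold yy
    rw [Matrix.mul_add, Matrix.add_mul, Matrix.mul_smul, Matrix.mul_smul, Matrix.smul_mul,
      Matrix.smul_mul]
  have h2 : yy P P 1 = 1 - yy P P 0 := by
    rw [← yy_add P]
    abel
  have h3 : X.1 - ((ψ⁻¹ : Eˣ) : E) • (1 : Matrix (Fin 2) (Fin 2) E) =
      ((ψ : E) - ((ψ⁻¹ : Eˣ) : E)) • yy P P 0 := by
    rw [h1, h2, sub_smul, smul_sub]
    abel
  rw [h3, smul_smul, inv_mul_cancel₀ (sub_ne_zero.2 hψ), one_smul]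

theorem jm_inv_dg (u : Eˣ) : (jm E)⁻¹ * dg u * jm E = dg u⁻¹ := by
  have h1 := jm_dg (A := E) u⁻¹
  rw [inv_inv] at h1
  rw [← h1]
  group

end

theorem path_mul {G : Type} [Group G] (a b c x y : G) :
    (a⁻¹ * x * b) * (b⁻¹ * y * c) = a⁻¹ * (x * y) * c := by group

theorem path_inv {G : Type} [Group G] (a b x : G) :
    b⁻¹ * x⁻¹ * a = (a⁻¹ * x * b)⁻¹ := by group

theorem glue_inv {G : Type} [Group G] (p t q : G) :
    (p * t * q⁻¹)⁻¹ = q * t⁻¹ * p⁻¹ := by group

section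
variable {E Ω Γ : Type} [Field E] [Field Ω] [Group Γ]

open Classical in
/-- The lattice of the exponents. -/
theorem lat {S : GG Γ} {ι : E →+* Ω} {R : Γ →* SL2 Ω} {d : LD S ι R} (b : BR S d)
    (hgen : ∀ (u v : S.V) (g : Γ), S.Pth u v g) (v : S.V) (hv : S.NA v) :
    ∃ L : AddSubgroup (S.E → ℤ), (∀ g, ∀ n, (b.rt g).1.trace.coeff n ≠ 0 → n ∈ L) ∧
      ∀ n ∈ L, AddMonoidAlgebra.single n (1 : E) ∈
        Submodule.span E (Set.range fun g => (b.rt g).1.trace) := by
  obtain ⟨N, hNd⟩ : ∃ N : S.V → S.V → Γ → Matrix (Fin 2) (Fin 2) (LR E S.E),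
    ∀ u v g, N u v g = ((b.g u)⁻¹ * b.rt g * b.g v).1 := ⟨_, fun _ _ _ => rfl⟩
  have hN : ∀ u v w g h, N u v g * N v w h = N u w (g * h) := by
    intro u v w g h
    rw [hNd, hNd, hNd, ← Matrix.SpecialLinearGroup.coe_mul, path_mul, ← map_mul]
  have hN1 : ∀ v, N v v 1 = 1 := by
    intro v
    rw [hNd, map_one, mul_one, inv_mul_cancel]
    rfl
  have hr : ∀ v, ∀ x : S.G v, N v v x = mono 0 (d.r v x).1 := by
    intro v x
    rw [hNd, b.vtx, mp_cE_val]
  have hsp : ∀ v (A : Matrix (Fin 2) (Fin 2) E),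
      A ∈ Submodule.span E (Set.range fun g => (d.r v g).1) → mono 0 A ∈ Sp N v v := by
    intro v A hA
    have h1 : Submodule.span E (Set.range fun g => (d.r v g).1) ≤
        (Sp N v v).comap (monoL 0) := by
      rw [Submodule.span_le]
      rintro _ ⟨x, rfl⟩
      change mono 0 (d.r v x).1 ∈ Sp N v v
      rw [← hr]
      exact Sp_mem N v v x
    exact h1 hA
  have hone : ∀ v, (1 : Matrix (Fin 2) (Fin 2) E) ∈
      Submodule.span E (Set.range fun g => (d.r v g).1) := by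
    intro v
    refine Submodule.subset_span ⟨1, ?_⟩
    change (d.r v 1).1 = 1
    rw [map_one]
    rfl
  have hall : ∀ v, S.NA v → ∀ A, mono 0 A ∈ Sp N v v := by
    intro v hv A
    apply hsp
    rw [d.na v hv]
    trivial
  -- the data at the vertices
  let J : S.V → Matrix (Fin 2) (Fin 2) E := fun v => if S.NA v then 1 else (jm E).1
  let J' : S.V → Matrix (Fin 2) (Fin 2) E := fun v => if S.NA v then 1 else ((jm E)⁻¹).1
  let T : S.V → SL2 E → Prop := fun v => if S.NA v then fun _ => True else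
    fun S => (yy S S 0) 0 1 = 0 ∧ (yy S S 0) 1 0 = 0
  have hV : ∀ v, VD N v (J v) (J' v) (T v) := by
    intro v
    by_cases h : S.NA v
    · have e1 : J v = 1 := if_pos h
      have e2 : J' v = 1 := if_pos h
      have e3 : T v = fun _ => True := if_pos h
      rw [e1, e2, e3]
      exact VD.na (hall v h)
    · have e1 : J v = (jm E).1 := if_neg h
      have e2 : J' v = ((jm E)⁻¹).1 := if_neg h
      have e3 : T v = fun S => (yy S S 0) 0 1 = 0 ∧ (yy S S 0) 1 0 = 0 := if_neg h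
      rw [e1, e2, e3]
      exact VD.ab (hsp v 1 (hone v))
  have hconj : ∀ v, ∀ x : S.G v, mono 0 (J' v * (d.r v x).1 * J v) ∈ Sp N v v := by
    intro v x
    by_cases h : S.NA v
    · exact hall v h _
    · have e1 : J v = (jm E).1 := if_neg h
      have e2 : J' v = ((jm E)⁻¹).1 := if_neg h
      rw [e1, e2]
      obtain ⟨u, hu⟩ := d.ab v h x
      have h1 : ((jm E)⁻¹).1 * (d.r v x).1 * (jm E).1 = (d.r v x⁻¹).1 := by
        rw [← Matrix.SpecialLinearGroup.coe_mul, ← Matrix.SpecialLinearGroup.coe_mul, hu,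
          jm_inv_dg, map_inv, hu, dg_inv]
      rw [h1, ← hr]
      exact Sp_mem N v v _
  have hyy : ∀ (v : S.V) (x : S.G v) (P : SL2 E) (ψ : Eˣ) (_ : (ψ : E) ≠ ((ψ⁻¹ : Eˣ) : E))
      (_ : d.r v x = P * dg ψ * P⁻¹), T v P ∧ ∀ i, mono 0 (yy P P i) ∈ Sp N v v := by
    intro v x P ψ hψ hP
    have h1 := yy_of_diag hψ hP
    have h2 : yy P P 0 ∈ Submodule.span E (Set.range fun g => (d.r v g).1) := by
      rw [h1]
      exact Submodule.smul_mem _ _ (Submodule.sub_mem _ (Submodule.subset_span ⟨x, rfl⟩)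
        (Submodule.smul_mem _ _ (hone v)))
    have h3 : yy P P 1 ∈ Submodule.span E (Set.range fun g => (d.r v g).1) := by
      have h4 : yy P P 1 = 1 - yy P P 0 := by
        rw [← yy_add P]
        abel
      rw [h4]
      exact Submodule.sub_mem _ (hone v) h2
    refine ⟨?_, fun i => ?_⟩
    · by_cases h : S.NA v
      · have e3 : T v = fun _ => True := if_pos h
        rw [e3]
        trivial
      · have e3 : T v = fun S => (yy S S 0) 0 1 = 0 ∧ (yy S S 0) 1 0 = 0 := if_neg h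
        rw [e3]
        obtain ⟨u, hu⟩ := d.ab v h x
        have a1 : (d.r v x).1 0 1 = 0 := by rw [hu, dg_01]
        have a2 : (d.r v x).1 1 0 = 0 := by rw [hu, dg_10]
        constructor
        · rw [h1, Matrix.smul_apply, Matrix.sub_apply, Matrix.smul_apply, a1]
          simp
        · rw [h1, Matrix.smul_apply, Matrix.sub_apply, Matrix.smul_apply, a2]
          simp
    · fin_cases i
      · exact hsp v _ h2
      · exact hsp v _ h3
  obtain ⟨L, hL1, hL2⟩ := span_GG S N hN hN1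
    (fun v x => if h : x ∈ S.G v then (d.r v ⟨x, h⟩).1 else 0)
    (fun v x hx => by rw [dif_pos hx]; exact hr v ⟨x, hx⟩) J J' T hV
    (fun v x hx => by rw [dif_pos hx]; exact hconj v ⟨x, hx⟩) d.P d.Q
    (fun e => (hyy _ _ _ _ (d.hψ e) (d.hP e)).1) (fun e => (hyy _ _ _ _ (d.hψ e) (d.hQ e)).1)
    (fun e => (hyy _ _ _ _ (d.hψ e) (d.hP e)).2) (fun e => (hyy _ _ _ _ (d.hψ e) (d.hQ e)).2)
    (fun e => by
      rw [hNd]
      refine (congrArg Subtype.val (b.edg e)).trans ?_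
      exact glue_val _ _ _)
    (fun e => by
      rw [hNd]
      have h1 : (b.g (S.b e))⁻¹ * b.rt (S.s e)⁻¹ * b.g (S.a e) =
          mp (cE E S.E) (d.Q e) * dg (tm E (-Pi.single e 1)) * (mp (cE E S.E) (d.P e))⁻¹ := by
        rw [← dg_tm_inv, map_inv, path_inv, b.edg, glue_inv]
      rw [h1, glue_val, neg_neg])
    v (if_pos hv) (hall v hv) (hgen v v)
  have htr : ∀ g, (N v v g).trace = (b.rt g).1.trace := by
    intro g
    rw [hNd, trace_conj]
  refine ⟨L, fun g n hn => hL1 g n (by rw [htr]; exact hn), fun n hn => ?_⟩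
  have h1 := hL2 n hn
  simp only [htr] at h1
  exact h1

end

end Pool.Agent.FrL
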