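import Pool.Agent.Lib.MP_305fdd_al.Fr.L.Gal

/-!
# MP_305fdd_al, F_r, block LAURENT: nonabelian vertices, the Galois extension of the eigenvalues
-/

set_option autoImplicit false
set_option linter.unusedSectionVars false

namespace Pool.Agent.FrL

open Matrix Pool.Agent.FrS Polynomial

theorem exists_ne1 {Γ : Type} [Group Γ] {H : Subgroup Γ} (h : H ≠ ⊥) : ∃ x ∈ H, x ≠ 1 := by
  by_contra hn
  push Not at hn
  exact h (eq_bot_iff.2 fun x hx => Subgroup.mem_bot.2 (hn x hx))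

section comm
variable {F Γ : Type} [Field F] [CharP F 2] [Group Γ]

/-- an element with nonzero trace is diagonalisable over the algebraic closure -/
theorem exists_diag_cl (A : SL2 F) (hA : A.1.trace ≠ 0) :
    ∃ (q : SL2 (AlgebraicClosure F)) (ψ : (AlgebraicClosure F)ˣ),
      (ψ : AlgebraicClosure F) ≠ ((ψ⁻¹ : (AlgebraicClosure F)ˣ) : AlgebraicClosure F) ∧
      q⁻¹ * mp (algebraMap F (AlgebraicClosure F)) A * q = dg ψ := by
  have hch : CharP (AlgebraicClosure F) 2 :=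
    charP_of_injective_algebraMap (algebraMap F (AlgebraicClosure F)).injective 2
  obtain ⟨t, ht⟩ : ∃ t, t = algebraMap F (AlgebraicClosure F) A.1.trace := ⟨_, rfl⟩
  have ht0 : t ≠ 0 := by
    rw [ht, Ne, map_eq_zero]
    exact hA
  have hdeg : (X ^ 2 - C t * X + 1 : Polynomial (AlgebraicClosure F)).degree ≠ 0 := by
    have : (X ^ 2 - C t * X + 1 : Polynomial (AlgebraicClosure F)).degree = 2 := by
      compute_degree!
    rw [this]
    decide
  obtain ⟨x, hx⟩ := IsAlgClosed.exists_root _ hdeg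
  have hx' : x ^ 2 - t * x + 1 = 0 := by
    simpa using hx
  have hx0 : x ≠ 0 := by
    rintro rfl
    simp at hx'
  have hsum : x + x⁻¹ = t := by
    have h1 : x * (x + x⁻¹) = x * t := by
      rw [mul_add, mul_inv_cancel₀ hx0]
      linear_combination hx'
    exact mul_left_cancel₀ hx0 h1
  have hne : x ≠ x⁻¹ := by
    intro h
    apply ht0
    rw [← hsum, ← h]
    exact CharTwo.add_self_eq_zero x
  obtain ⟨q, hq⟩ := exists_diag (mp (algebraMap F (AlgebraicClosure F)) A) (Units.mk0 x hx0) (by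
      rw [Units.val_mk0, Units.val_inv_eq_inv_val, Units.val_mk0]
      exact hne) (by
      rw [mp_trace, Units.val_mk0, Units.val_inv_eq_inv_val, Units.val_mk0, hsum, ht])
  exact ⟨q, Units.mk0 x hx0, by
    rw [Units.val_mk0, Units.val_inv_eq_inv_val, Units.val_mk0]
    exact hne, hq⟩

/-- commuting is transitive -/
theorem comm_trans (ρ : Γ →* SL2 F) (hρ : Function.Injective ρ)
    (hdiv : ∀ g, (ρ g).1.trace = 0 → g = 1) {c x y : Γ} (hc : c ≠ 1) (hx : x * c = c * x)
    (hy : y * c = c * y) : x * y = y * x := by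
  obtain ⟨i, hi⟩ : ∃ i, i = algebraMap F (AlgebraicClosure F) := ⟨_, rfl⟩
  obtain ⟨q, ψ, hψ, hq⟩ := exists_diag_cl (ρ c) (fun h => hc (hdiv c h))
  rw [← hi] at hq
  have key : ∀ z : Γ, z * c = c * z → ∃ u, q⁻¹ * mp i (ρ z) * q = dg u := by
    intro z hz
    apply diag_of_comm ψ hψ
    rw [← hq]
    have h1 : mp i (ρ z) * mp i (ρ c) = mp i (ρ c) * mp i (ρ z) := by
      rw [← map_mul, ← map_mul, hz, map_mul, map_mul]
    calc q⁻¹ * mp i (ρ z) * q * (q⁻¹ * mp i (ρ c) * q)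
        = q⁻¹ * (mp i (ρ z) * mp i (ρ c)) * q := by group
      _ = _ := by rw [h1]; group
  obtain ⟨u, hu⟩ := key x hx
  obtain ⟨v, hv⟩ := key y hy
  apply hρ
  apply mp_inj i i.injective
  have h2 : mp i (ρ x) = q * dg u * q⁻¹ := by rw [← hu]; group
  have h3 : mp i (ρ y) = q * dg v * q⁻¹ := by rw [← hv]; group
  rw [map_mul, map_mul, map_mul, map_mul, h2, h3]
  calc q * dg u * q⁻¹ * (q * dg v * q⁻¹) = q * (dg u * dg v) * q⁻¹ := by group
    _ = _ := by rw [dg_comm]; group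

/-- an element which commutes with a conjugate of itself commutes with the conjugating element -/
theorem comm_conj (ρ : Γ →* SL2 F) (hρ : Function.Injective ρ)
    (hdiv : ∀ g, (ρ g).1.trace = 0 → g = 1) {c g : Γ} (hc : c ≠ 1)
    (h : (g * c * g⁻¹) * c = c * (g * c * g⁻¹)) : g * c = c * g := by
  obtain ⟨i, hi⟩ : ∃ i, i = algebraMap F (AlgebraicClosure F) := ⟨_, rfl⟩
  obtain ⟨q, ψ, hψ, hq⟩ := exists_diag_cl (ρ c) (fun h => hc (hdiv c h))
  rw [← hi] at hq
  obtain ⟨G, hG⟩ : ∃ G, G = q⁻¹ * mp i (ρ g) * q := ⟨_, rfl⟩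
  have hC : mp i (ρ c) = q * dg ψ * q⁻¹ := by rw [← hq]; group
  have hgc : q⁻¹ * mp i (ρ (g * c * g⁻¹)) * q = G * dg ψ * G⁻¹ := by
    rw [hG, map_mul, map_mul, map_mul, map_mul, map_inv, map_inv, hC]
    group
  obtain ⟨u, hu⟩ : ∃ u, G * dg ψ * G⁻¹ = dg u := by
    apply diag_of_comm ψ hψ
    rw [← hgc]
    have h1 : mp i (ρ (g * c * g⁻¹)) * mp i (ρ c) = mp i (ρ c) * mp i (ρ (g * c * g⁻¹)) := by
      rw [← map_mul, ← map_mul, h, map_mul, map_mul]
    have h2 : dg ψ = q⁻¹ * mp i (ρ c) * q := hq.symm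
    rw [h2]
    calc q⁻¹ * mp i (ρ (g * c * g⁻¹)) * q * (q⁻¹ * mp i (ρ c) * q)
        = q⁻¹ * (mp i (ρ (g * c * g⁻¹)) * mp i (ρ c)) * q := by group
      _ = _ := by rw [h1]; group
  have ht : (ψ : AlgebraicClosure F) + ((ψ⁻¹ : (AlgebraicClosure F)ˣ) : AlgebraicClosure F) =
      u + ((u⁻¹ : (AlgebraicClosure F)ˣ) : AlgebraicClosure F) := by
    have h1 := trace_conj' G (dg ψ)
    rw [hu, Matrix.trace_fin_two, Matrix.trace_fin_two, dg_00, dg_11, dg_00, dg_11] at h1
    exact h1.symm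
  rcases unit_of_sum ht with h1 | h1
  · rw [h1] at hu
    have h2 : G * dg ψ = dg ψ * G := mul_inv_eq_iff_eq_mul.1 hu
    apply hρ
    apply mp_inj i i.injective
    have hG' : mp i (ρ g) = q * G * q⁻¹ := by rw [hG]; group
    rw [map_mul, map_mul, map_mul, map_mul, hC, hG']
    calc q * G * q⁻¹ * (q * dg ψ * q⁻¹) = q * (G * dg ψ) * q⁻¹ := by group
      _ = _ := by rw [h2]; group
  · -- the element exchanges the two axes: its trace is zero
    have h2 : G * dg ψ = dg u * G := mul_inv_eq_iff_eq_mul.1 hu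
    have hne : ((ψ : AlgebraicClosure F) - ((ψ⁻¹ : (AlgebraicClosure F)ˣ) : AlgebraicClosure F)) ≠ 0 :=
      sub_ne_zero.2 hψ
    have e0 : G.1 0 0 = 0 := by
      have h3 : (G * dg ψ).1 0 0 = (dg u * G).1 0 0 := by rw [h2]
      rw [mul_00, mul_00, dg_00, dg_10, dg_00, dg_01, h1] at h3
      have h4 : ((ψ : AlgebraicClosure F) - ((ψ⁻¹ : (AlgebraicClosure F)ˣ) : AlgebraicClosure F)) *
          G.1 0 0 = 0 := by linear_combination h3
      exact (mul_eq_zero.1 h4).resolve_left hne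
    have e1 : G.1 1 1 = 0 := by
      have h3 : (G * dg ψ).1 1 1 = (dg u * G).1 1 1 := by rw [h2]
      rw [mul_11, mul_11, dg_01, dg_11, dg_10, dg_11, h1, inv_inv] at h3
      have h4 : ((ψ : AlgebraicClosure F) - ((ψ⁻¹ : (AlgebraicClosure F)ˣ) : AlgebraicClosure F)) *
          G.1 1 1 = 0 := by linear_combination -h3
      exact (mul_eq_zero.1 h4).resolve_left hne
    have h3 : (ρ g).1.trace = 0 := by
      apply i.injective
      rw [map_zero, ← mp_trace, ← trace_conj q, ← hG, Matrix.trace_fin_two, e0, e1, add_zero]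
    rw [hdiv g h3, one_mul, mul_one]

variable (S : GG Γ)

/-- all vertex groups are nontrivial -/
theorem G_ne (hgen : ∀ (u v : S.V) (g : Γ), S.Pth u v g) (hne : ∀ e, S.C e ≠ ⊥)
    (hab : ¬ ∀ g h : Γ, g * h = h * g) (v : S.V) : S.G v ≠ ⊥ := by
  intro hv
  have key : ∀ u g, S.Pth v u g → u = v ∧ g = 1 := by
    intro u g h
    induction h with
    | one => exact ⟨rfl, rfl⟩
    | @grp w g x hg hx ih =>
      obtain ⟨rfl, rfl⟩ := ih
      rw [hv, Subgroup.mem_bot] at hx
      exact ⟨rfl, by rw [hx, one_mul]⟩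
    | @fwd g e hg ih =>
      exfalso
      apply hne e
      rw [eq_bot_iff, ← hv]
      have := S.Ca e
      rwa [ih.1] at this
    | @bwd g e hg ih =>
      exfalso
      apply hne e
      rw [eq_bot_iff]
      intro c hc
      have h1 := S.Cb e c hc
      rw [ih.1, hv, Subgroup.mem_bot] at h1
      rw [Subgroup.mem_bot]
      calc c = S.s e * ((S.s e)⁻¹ * c * S.s e) * (S.s e)⁻¹ := by group
        _ = 1 := by rw [h1]; group
  apply hab
  intro g h
  rw [(key v g (hgen v v g)).2, (key v h (hgen v v h)).2]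

/-- there is a nonabelian vertex -/
theorem exists_NA (ρ : Γ →* SL2 F) (hρ : Function.Injective ρ)
    (hdiv : ∀ g, (ρ g).1.trace = 0 → g = 1)
    (hgen : ∀ (u v : S.V) (g : Γ), S.Pth u v g) (hne : ∀ e, S.C e ≠ ⊥)
    (hab : ¬ ∀ g h : Γ, g * h = h * g) : ∃ v, S.NA v := by
  by_contra hn
  push Not at hn
  unfold GG.NA at hn
  push Not at hn
  obtain ⟨v0⟩ := S.nV
  obtain ⟨c0, hc0, hc1⟩ := exists_ne1 (G_ne S hgen hne hab v0)
  have key : ∀ u g, S.Pth v0 u g → ∀ x ∈ S.G u, (g * x * g⁻¹) * c0 = c0 * (g * x * g⁻¹) := by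
    intro u g h
    induction h with
    | one => intro x hx; simpa using hn v0 x hx c0 hc0
    | @grp w g y hg hy ih =>
      intro x hx
      have h1 := ih (y * x * y⁻¹) (mul_mem (mul_mem hy hx) (inv_mem hy))
      have h2 : g * y * x * (g * y)⁻¹ = g * (y * x * y⁻¹) * g⁻¹ := by group
      rw [h2]
      exact h1
    | @fwd g e hg ih =>
      intro x hx
      obtain ⟨c, hc, hc1⟩ := exists_ne1 (hne e)
      have h1 := ih c (S.Ca e hc)
      have h2 : (g * S.s e * x * (g * S.s e)⁻¹) * (g * c * g⁻¹) =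
          (g * c * g⁻¹) * (g * S.s e * x * (g * S.s e)⁻¹) := by
        have h3 := hn _ x hx _ (S.Cb e c hc)
        calc (g * S.s e * x * (g * S.s e)⁻¹) * (g * c * g⁻¹)
            = g * S.s e * (x * ((S.s e)⁻¹ * c * S.s e)) * (g * S.s e)⁻¹ := by group
          _ = _ := by rw [h3]; group
      refine comm_trans ρ hρ hdiv (c := g * c * g⁻¹) ?_ h2 h1.symm
      intro h
      apply hc1
      calc c = g⁻¹ * (g * c * g⁻¹) * g := by group
        _ = 1 := by rw [h]; group
    | @bwd g e hg ih =>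
      intro x hx
      obtain ⟨c, hc, hc1⟩ := exists_ne1 (hne e)
      have h1 := ih _ (S.Cb e c hc)
      have h2 : (g * (S.s e)⁻¹ * x * (g * (S.s e)⁻¹)⁻¹) * (g * ((S.s e)⁻¹ * c * S.s e) * g⁻¹) =
          (g * ((S.s e)⁻¹ * c * S.s e) * g⁻¹) * (g * (S.s e)⁻¹ * x * (g * (S.s e)⁻¹)⁻¹) := by
        have h3 := hn _ x hx c (S.Ca e hc)
        calc (g * (S.s e)⁻¹ * x * (g * (S.s e)⁻¹)⁻¹) * (g * ((S.s e)⁻¹ * c * S.s e) * g⁻¹)
            = g * (S.s e)⁻¹ * (x * c) * (g * (S.s e)⁻¹)⁻¹ := by group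
          _ = _ := by rw [h3]; group
      refine comm_trans ρ hρ hdiv (c := g * ((S.s e)⁻¹ * c * S.s e) * g⁻¹) ?_ h2 h1.symm
      intro h
      apply hc1
      calc c = S.s e * g⁻¹ * (g * ((S.s e)⁻¹ * c * S.s e) * g⁻¹) * g * (S.s e)⁻¹ := by group
        _ = 1 := by rw [h]; group
  have hall : ∀ g : Γ, g * c0 = c0 * g := fun g =>
    comm_conj ρ hρ hdiv hc1 (key v0 g (hgen v0 v0 g) c0 hc0)
  exact hab fun g h => comm_trans ρ hρ hdiv hc1 (hall g) (hall h)

end comm

/-- the splitting field of the polynomials `X ^ 2 - t X + 1` in characteristic two -/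
theorem exists_E {Kf : Type} [Field Kf] [CharP Kf 2] (s : Finset Kf) (hs : ∀ t ∈ s, t ≠ 0) :
    ∃ (E : Type) (_ : Field E) (_ : Algebra Kf E), FiniteDimensional Kf E ∧ IsGalois Kf E ∧
      ∀ t ∈ s, ∃ ψ : Eˣ, (ψ : E) ≠ ((ψ⁻¹ : Eˣ) : E) ∧
        algebraMap Kf E t = ψ + ((ψ⁻¹ : Eˣ) : E) := by
  classical
  obtain ⟨f, hf⟩ : ∃ f : Kf → Kf[X], ∀ t, f t = X ^ 2 - C t * X + 1 := ⟨_, fun t => rfl⟩
  obtain ⟨p, hp⟩ : ∃ p : Kf[X], p = ∏ t ∈ s, f t := ⟨_, rfl⟩
  have h2 : (2 : Kf[X]) = 0 := by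
    exact_mod_cast CharP.cast_eq_zero Kf[X] 2
  have hsep : p.Separable := by
    rw [hp]
    apply separable_prod'
    · intro t ht t' ht' hne
      have hc : (t' - t) ≠ 0 := sub_ne_zero.2 fun h => hne h.symm
      have h1 : (C (t' - t)⁻¹ : Kf[X]) * (C t' - C t) = 1 := by
        rw [← C_sub, ← C_mul, inv_mul_cancel₀ hc, C_1]
      refine ⟨1 - (X - C t) * C (t' - t)⁻¹, (X - C t) * C (t' - t)⁻¹, ?_⟩
      rw [hf, hf]
      linear_combination (-(X - C t) * X) * h1
    · intro t ht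
      have h1 : (C t⁻¹ : Kf[X]) * C t = 1 := by
        rw [← C_mul, inv_mul_cancel₀ (hs t ht), C_1]
      refine ⟨0, -C t⁻¹, ?_⟩
      have h3 : derivative (f t) = - C t := by
        rw [hf]
        simp only [derivative_sub, derivative_add, derivative_X_pow, derivative_mul, derivative_C,
          derivative_X, derivative_one]
        simp only [Nat.cast_ofNat, map_ofNat, h2]
        ring
      rw [h3]
      linear_combination h1
  have hp0 : p.map (algebraMap Kf p.SplittingField) ≠ 0 := by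
    rw [Ne, Polynomial.map_eq_zero]
    exact hsep.ne_zero
  have hfd : FiniteDimensional Kf p.SplittingField := inferInstance
  have hg : IsGalois Kf p.SplittingField := IsGalois.of_separable_splitting_field hsep
  have hch : CharP p.SplittingField 2 :=
    charP_of_injective_algebraMap (algebraMap Kf p.SplittingField).injective 2
  refine ⟨p.SplittingField, inferInstance, inferInstance, hfd, hg, ?_⟩
  intro t ht
  have hd : f t ∣ p := by
    rw [hp]
    exact Finset.dvd_prod_of_mem f ht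
  have hsp : ((f t).map (algebraMap Kf p.SplittingField)).Splits :=
    (SplittingField.splits p).of_dvd hp0 (Polynomial.map_dvd _ hd)
  have hdeg : ((f t).map (algebraMap Kf p.SplittingField)).degree ≠ 0 := by
    rw [Polynomial.degree_map]
    have : (f t).degree = 2 := by
      rw [hf]
      compute_degree!
    rw [this]
    decide
  obtain ⟨x, hx⟩ := hsp.exists_eval_eq_zero hdeg
  obtain ⟨t', ht'⟩ : ∃ t', t' = algebraMap Kf p.SplittingField t := ⟨_, rfl⟩
  have ht0 : t' ≠ 0 := by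
    rw [ht', Ne, map_eq_zero]
    exact hs t ht
  have hx' : x ^ 2 - t' * x + 1 = 0 := by
    rw [hf] at hx
    simpa [ht'] using hx
  have hx0 : x ≠ 0 := by
    rintro rfl
    simp at hx'
  have hsum : x + x⁻¹ = t' := by
    have h1 : x * (x + x⁻¹) = x * t' := by
      rw [mul_add, mul_inv_cancel₀ hx0]
      linear_combination hx'
    exact mul_left_cancel₀ hx0 h1
  refine ⟨Units.mk0 x hx0, ?_, ?_⟩
  · rw [Units.val_inv_eq_inv_val, Units.val_mk0]
    intro h
    apply ht0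
    rw [← hsum, ← h]
    exact CharTwo.add_self_eq_zero x
  · rw [Units.val_inv_eq_inv_val, Units.val_mk0, hsum, ht']

end Pool.Agent.FrL
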